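import Pool.Agent.Helper96.UQR.Uqr
import Pool.Agent.Helper50.VR.Flt

/-! Property UR for flat corners (helper13's classes of corners, helper50's form of the types). -/

set_option autoImplicit false

namespace Pool.Agent.Helper96.UQR

open Finset Filter Topology Pool.Agent.Helper69.RK Pool.Agent.Helper31.EC Pool.Agent.Helper40.EL
open Pool.Agent.Helper38.NS Pool.Agent.Helper96.FWC
open Pool.Agent.Helper10.JET
open Pool.Agent.Helper13.AM (CD Tri FlatH Cls PR)
open Pool.Agent.Helper57.TA (wgt)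
open Pool.Agent.Helper50.VR (UR Po Tp FlD exists_flD)
open Pool.Agent.Helper50.VC (VB)

noncomputable section

open Sp QS

section poly

variable {S : Sp}

/-- digits of the values of a polynomial: only the variables which occur -/
theorem eval_low {σ : Type} {A B : S.L} {P : MvPolynomial σ (QS S)} (hP : ∀ m, dg (P.coeff m) 1 ≤ A)
    (x : σ → QS S) {k : ℝ} (k1 : k ≤ 1) (hAB : A ≤ B)
    (hx : ∀ m, P.coeff m ≠ 0 → ∀ i, m i ≠ 0 → dg (x i) k ≤ B) : dg (MvPolynomial.eval x P) k ≤ B := by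
  rw [MvPolynomial.eval_eq]
  apply (Kn S k k1 B).sum_mem
  intro m hm
  apply (Kn S k k1 B).mul_mem (((dg_mono _ k1).trans (hP m)).trans hAB)
  apply (Kn S k k1 B).prod_mem
  intro i hi
  exact (Kn S k k1 B).pow_mem (hx m (MvPolynomial.mem_support_iff.mp hm) i (Finsupp.mem_support_iff.mp hi)) _

/-- a finite set with real weights -/
theorem wf_wt {N : ℕ} (w : Fin N → ℝ) : WellFounded fun l j : Fin N => w l < w j := by
  have : IsTrans (Fin N) fun l j => w l < w j := ⟨fun _ _ _ h1 h2 => h1.trans h2⟩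
  have : Std.Irrefl (α := Fin N) fun l j => w l < w j := ⟨fun _ => lt_irrefl _⟩
  exact Finite.wellFounded_of_trans_of_irrefl _

theorem le_wgt {σ : Type} [Fintype σ] {wt : σ → ℝ} (h0 : ∀ a, 0 ≤ wt a) {m : σ →₀ ℕ} {a : σ} (h : m a ≠ 0) :
    wt a ≤ wgt wt m := by
  unfold wgt
  have h1 : (m a : ℝ) * wt a ≤ ∑ b, (m b : ℝ) * wt b :=
    Finset.single_le_sum (f := fun b => (m b : ℝ) * wt b) (fun b _ => mul_nonneg (Nat.cast_nonneg _) (h0 b))
      (Finset.mem_univ a)
  refine le_trans ?_ h1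
  have h2 : (1 : ℝ) ≤ (m a : ℝ) := by exact_mod_cast Nat.one_le_iff_ne_zero.mpr h
  calc wt a = 1 * wt a := (one_mul _).symm
    _ ≤ (m a : ℝ) * wt a := mul_le_mul_of_nonneg_right h2 (h0 a)

end poly

variable {S : Sp} {d N r : ℕ} {w : Fin N → ℝ} {z : Fin N} {ρ : ℝ}

/-- real triangular changes of coordinates: the same digits over the base point -/
theorem vd_tri (c : CD S d N r) {H : Fin N → MvPolynomial (Fin (d + 1) ⊕ Fin N) (QS S)} (hT : Tri w H) {k : ℝ}
    (k1 : k ≤ 1) : vd (c.cR H) k ⊔ vd c.q 1 = vd c.R k ⊔ vd c.q 1 := by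
  have hq : ∀ a, dg (c.q a) k ≤ vd c.q 1 := fun a => (dg_mono _ k1).trans (dg_le_vd c.q 1 a)
  apply le_antisymm
  · apply sup_le _ le_sup_right
    rw [vd_le]
    intro j
    unfold CD.cR
    apply (Kn S k k1 _).sub_mem ((dg_le_vd c.R k j).trans le_sup_left)
    refine eval_low (hT.real j) _ k1 bot_le fun m _ a _ => ?_
    rcases a with a | a
    · exact (hq a).trans le_sup_right
    · exact (dg_le_vd c.R k a).trans le_sup_left
  · apply sup_le _ le_sup_right
    rw [vd_le]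
    intro j
    induction j using (wf_wt w).induction with
    | h j ih =>
      have e : c.R j = c.cR H j + MvPolynomial.eval c.pt (H j) := by
        unfold CD.cR
        ring
      rw [e]
      apply (Kn S k k1 _).add_mem ((dg_le_vd (c.cR H) k j).trans le_sup_left)
      refine eval_low (hT.real j) _ k1 bot_le fun m hm a ha => ?_
      rcases a with a | a
      · exact (hq a).trans le_sup_right
      · exact ih a (hT.low j m hm a ha)

/-- the box, the lower coordinates and the base point determine the top coordinate -/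
theorem zk_cor {c : CD S d N r} (h : c.Ax w z ρ) {s : ℝ} (s0 : 0 ≤ s) (s1 : w z * s ≤ 1) :
    dg (c.R z) (w z * s) ≤ c.K s ⊔ (vd (c.M z) (w z * s) ⊔ c.P) := by
  obtain ⟨B, hB⟩ : ∃ B : S.L, B = c.K s ⊔ (vd (c.M z) (w z * s) ⊔ c.P) := ⟨_, rfl⟩
  rw [← hB]
  have hK : c.K s ≤ B := by rw [hB]; exact le_sup_left
  have hM : vd (c.M z) (w z * s) ≤ B := by rw [hB]; exact le_sup_left.trans le_sup_right
  have hP : c.P ≤ B := by rw [hB]; exact le_sup_right.trans le_sup_right
  have w0 : ∀ a : Fin (d + 1) ⊕ Fin N, 0 ≤ (Sum.elim (fun _ => (1 : ℝ)) w) a := by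
    rintro (a | a)
    · exact zero_le_one
    · exact zero_le_one.trans (h.w1 a).le
  have hF : ∀ j m, dg ((c.F s j).coeff m) 1 ≤ c.K s := fun j m => (h.bx.litF s j m).dg_le (h.bx.bdd s) le_rfl
  have hq : ∀ i, dg (c.q i - c.q0 s i) (w z * s) ≤ B := by
    intro i
    refine (dg_mono _ s1).trans ?_
    apply (Kn S 1 le_rfl _).sub_mem ((dg_le_vd c.q 1 i).trans hP)
    exact ((h.bx.litq s i).dg_le (h.bx.bdd s) le_rfl).trans hK
  have hγ : ∀ j, w j < w z → dg (c.γ s j) (w z * s) ≤ B := by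
    intro j
    induction j using (wf_wt w).induction with
    | h j ih =>
      intro hj
      have e : c.γ s j = c.R j - MvPolynomial.eval (Sum.elim (fun i => c.q i - c.q0 s i) (c.γ s)) (c.F s j) := by
        have e1 := h.bx.fR s s0 s1 j
        linear_combination -e1
      rw [e]
      have hjz : j ≠ z := fun e => by rw [e] at hj; exact lt_irrefl _ hj
      apply (Kn S (w z * s) s1 _).sub_mem ((dg_le_vd (c.M z) (w z * s) ⟨j, hjz⟩).trans hM)
      refine eval_low (hF j) _ s1 hK fun m hm a ha => ?_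
      rcases a with a | a
      · exact hq a
      · have h1 : w a ≤ wgt (Sum.elim (fun _ => 1) w) m :=
          le_wgt (wt := Sum.elim (fun _ => (1 : ℝ)) w) w0 (a := Sum.inr a) ha
        have h2 := h.bx.deg s j m hm
        have h3 : w a < w j := lt_of_le_of_lt h1 h2
        exact ih a h3 (h3.trans hj)
  have e1 := h.bx.fR s s0 s1 z
  rw [e1]
  apply (Kn S (w z * s) s1 _).add_mem
  · refine eval_low (hF z) _ s1 hK fun m hm a ha => ?_
    rcases a with a | a
    · exact hq a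
    · have h1 : w a ≤ wgt (Sum.elim (fun _ => 1) w) m :=
        le_wgt (wt := Sum.elim (fun _ => (1 : ℝ)) w) w0 (a := Sum.inr a) ha
      exact hγ a (lt_of_le_of_lt h1 (h.bx.deg s z m hm))
  · have h1 : c.γ s z - 0 ∈ Id S (w z * s) := by
      rw [sub_zero]
      exact h.bx.fγ s s0 s1 z
    show dg (c.γ s z) (w z * s) ≤ B
    rw [dg_eq_of_sub_mem h1 le_rfl s1]
    exact (Kn S (w z * s) s1 B).zero_mem

/-- the numbers of a corner (helper33's form) -/
def hcor {c : CD S d N r} (h : c.Ax w z ρ) : Pool.Agent.Helper33.CM.HCor S.L where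
  F := ⊥
  q := c.P
  M := fun k => vd (c.M z) k
  z := fun k => dg (c.R z) k
  be := fun s => c.K s
  B := 1
  N := (N : ℝ) - 1
  W := ∑ j ∈ univ.erase z, w j
  d := (d : ℝ) + 1
  w := w z
  A₀ := (d : ℝ) + 1 + (∑ j ∈ univ.erase z, w j) + (1 - ρ) * w z
  hB := zero_le_one
  hw := zero_lt_one.trans (h.w1 z)
  Fq := bot_le
  monoM := fun _ _ _ h1 _ => vd_mono _ h1
  monoz := fun _ _ _ h1 _ => dg_mono _ h1
  hbe := fun s h0 h1 => by rw [h_bot]; exact h.num.hbe s h0 h1
  pr0 := fun s h0 h1 => h.num.pr0 s h0 h1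
  pr1 := fun k h0 h1 => h.num.pr1 k h0 h1
  pr2 := fun s k h0 h1 h2 => h.num.pr2 s k h0 h1 h2
  zk := fun s h0 h1 => zk_cor h h0 h1

/-- `h(R_k | q) = (N - ρ) k` -/
theorem h_R {c : CD S d N r} (h : c.Ax w z ρ) {k : ℝ} (h0 : 0 ≤ k) (h1 : k ≤ 1) :
    Helper31.EC.h (vd c.R k) (vd c.q 1) = ((N : ℝ) - ρ) * k := by
  have hv : (hcor h).Vis := fun s s0 s1 => h.num.vis s s0 s1
  have h2 := hv.h_R h0 h1
  have hw : (0 : ℝ) < w z := zero_lt_one.trans (h.w1 z)
  have h3 : (hcor h).κ = 1 - ρ := by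
    show ((d : ℝ) + 1 + (∑ j ∈ univ.erase z, w j) + (1 - ρ) * w z - ((d : ℝ) + 1) - ∑ j ∈ univ.erase z, w j) / w z =
      1 - ρ
    rw [div_eq_iff hw.ne']
    ring
  have h4 : (hcor h).R k = vd c.R k := by
    show dg (c.R z) k ⊔ vd (c.M z) k = vd c.R k
    apply le_antisymm
    · apply sup_le (dg_le_vd c.R k z)
      rw [vd_le]
      exact fun j => dg_le_vd c.R k j.1
    · rw [vd_le]
      intro j
      by_cases hj : j = z
      · rw [hj]
        exact le_sup_left
      · exact (dg_le_vd (c.M z) k ⟨j, hj⟩).trans le_sup_right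
  have h5 : (hcor h).q = vd c.q 1 := rfl
  have h6 : (hcor h).N = (N : ℝ) - 1 := rfl
  rw [h3, h4, h5, h6] at h2
  rw [h2]
  ring

section maps

variable (c : CD S d N r) (H : Fin N → MvPolynomial (Fin (d + 1) ⊕ Fin N) (QS S))

theorem pull_cR {T : Sp} (p : Pj T S) (j : Fin N) :
    (c.pull p).cR (fun j => MvPolynomial.map p.qs (H j)) j = p.qs (c.cR H j) := by
  unfold CD.cR
  rw [map_sub, qs_eval]
  have e1 : (fun i => p.qs (c.pt i)) = (c.pull p).pt := by
    funext i
    rcases i with i | i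
    · rfl
    · rfl
  rw [e1]
  rfl

theorem rest_cR (E : ∀ k, (S.F k).Ω → Prop) (hE : 0 < ul (S.pr E)) (j : Fin N) :
    (c.rest E hE).cR (fun j => MvPolynomial.map (QS.rest E hE) (H j)) j = QS.rest E hE (c.cR H j) := by
  unfold CD.cR
  rw [map_sub, Pool.Agent.Helper95.RIG.eval_hom]
  have e1 : (fun i => QS.rest E hE (c.pt i)) = (c.rest E hE).pt := by
    funext i
    rcases i with i | i
    · rfl
    · rfl
  rw [e1]
  rfl

variable {H}

theorem tri_pull (hT : Tri w H) {T : Sp} (p : Pj T S) : Tri w fun j => MvPolynomial.map p.qs (H j) where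
  real := fun j => by
    have h1 := map_PK p (hT.real j)
    rw [p.map_bot] at h1
    exact h1
  low := fun j n hn l hl => by
    apply hT.low j n _ l hl
    intro h0
    apply hn
    rw [MvPolynomial.coeff_map, h0, map_zero]

theorem tri_rest (hT : Tri w H) (E : ∀ k, (S.F k).Ω → Prop) (hE : 0 < ul (S.pr E)) :
    Tri w fun j => MvPolynomial.map (QS.rest E hE) (H j) where
  real := fun j n => by
    rw [MvPolynomial.coeff_map, QS.rest_dg, ← restL_bot E hE]
    exact restL_mono E hE (hT.real j n)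
  low := fun j n hn l hl => by
    apply hT.low j n _ l hl
    intro h0
    apply hn
    rw [MvPolynomial.coeff_map, h0, map_zero]

end maps

/-- (0.1) in real triangular coordinates, on events of extensions -/
theorem dv_cR {C : ∀ S : Sp, CD S d N r → Prop} (hC : Cls d N r w z ρ C) {c : CD S d N r} (hc : C S c)
    {H : Fin N → MvPolynomial (Fin (d + 1) ⊕ Fin N) (QS S)} (hT : Tri w H) : DV S c.q (c.cR H) 1 ((N : ℝ) - ρ) := by
  intro T p E hE k h0 h1
  have c2 := hC.rest _ _ (hC.pull S c hc T p) E hE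
  have t2 := tri_rest (tri_pull hT p) E hE
  have h2 := h_R (hC.ax _ _ c2) h0 h1
  have h3 := vd_tri ((c.pull p).rest E hE) t2 h1
  have e1 : vd (((c.pull p).rest E hE).cR fun j => MvPolynomial.map (QS.rest E hE) (MvPolynomial.map p.qs (H j))) k =
      restL E hE (p.map (vd (c.cR H) k)) := by
    rw [← p.qs_vd, ← QS.rest_vd]
    apply vd_congr
    intro j
    rw [rest_cR (c.pull p) (fun j => MvPolynomial.map p.qs (H j)) E hE j, pull_cR c H p j]
  have e2 : vd ((c.pull p).rest E hE).q 1 = restL E hE (p.map (vd c.q 1)) := by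
    rw [← p.qs_vd, ← QS.rest_vd]
    rfl
  rw [e1] at h3
  rw [← e2, ← h2]
  exact h_congr_left (le_sup_left.trans h3.le) (le_sup_left.trans h3.ge)

/-- full quotients modulo `Id r` -/
theorem stqe_congr {ι ν : Type} [Fintype ι] [Fintype ν] {q : ι → QS S} {y y' : ν → QS S} {κ : ℝ} (κ1 : κ ≤ 1)
    (h : Pool.Agent.Helper13.AM.STQE q y 1) (he : ∀ i, y i - y' i ∈ Id S κ) : STQE S q y' κ := by
  intro T p E hE α U hU u a ha hu k h0 h1
  have h2 := h T p E hE α U hU u a ha hu k h0 (h1.trans κ1)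
  have e1 : ∀ i, QS.rest E hE (p.qs (y i)) - QS.rest E hE (p.qs (y' i)) ∈ Id (T.rest E) κ := by
    intro i
    rw [← map_sub, ← map_sub]
    exact Pool.Agent.Helper38.NS.rest_mem_Id E hE κ1 ((p.qs_mem_Id κ1).mpr (he i))
  have e2 : vd (wg (fun i => QS.rest E hE (p.qs (y' i))) u a) k = vd (wg (fun i => QS.rest E hE (p.qs (y i))) u a) k := by
    unfold vd
    congr 1
    funext i
    refine (dg_eq_of_sub_mem (r := κ) ?_ h1 (h1.trans κ1)).symm
    unfold wg
    have e4 : QS.rest E hE (p.qs (y i)) * u a - QS.rest E hE (p.qs (y a)) * u i -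
        (QS.rest E hE (p.qs (y' i)) * u a - QS.rest E hE (p.qs (y' a)) * u i) =
        u a * (QS.rest E hE (p.qs (y i)) - QS.rest E hE (p.qs (y' i))) -
          u i * (QS.rest E hE (p.qs (y a)) - QS.rest E hE (p.qs (y' a))) := by ring
    rw [e4]
    exact (Id _ κ).sub_mem ((Id _ κ).mul_mem_left _ (e1 i)) ((Id _ κ).mul_mem_left _ (e1 a))
  rw [e2]
  exact h2

/-- the unit box is trivial -/
theorem K_zero {c : CD S d N r} (h : c.Ax w z ρ) : c.K 0 = ⊥ := by
  apply le_antisymm _ bot_le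
  have h1 := h.num.hbe 0 le_rfl (by rw [mul_zero]; exact zero_le_one)
  rw [mul_zero, ← h_bot] at h1
  exact h_le_zero_iff.mp h1.le

/-- NO LABELS for the whole corner -/
theorem nlc_cor {c : CD S d N r} (h : c.Ax w z ρ) : NLC c.O c.xi := by
  apply NLK.nlc
  intro W p E hE V hO hξ y
  have e0 : ∀ i, c.xi i ⊔ dg (c.q 0) 0 = c.xi i := by
    intro i
    apply sup_eq_left.mpr
    refine (le_of_eq ?_).trans bot_le
    have h1 : c.q 0 - 0 ∈ Id S 0 := mem_Id_nonpos le_rfl
    rw [dg_eq_of_sub_mem h1 le_rfl zero_le_one]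
    exact le_antisymm (Kn S 0 zero_le_one ⊥).zero_mem bot_le
  have h1 := h.lb.nlk 0 le_rfl (by rw [mul_zero]; exact zero_lt_one) W p E hE V hO
    (fun i y => by rw [e0]; exact hξ i y) y
  rw [K_zero h, p.map_bot, restL_bot] at h1
  exact h1

/-- there is a type -/
theorem r_pos {c : CD S d N r} (h : c.Ax w z ρ) : 0 < r := by
  rcases Nat.eq_zero_or_pos r with h0 | h0
  · exfalso
    subst h0
    have h1 := h.lb.lab 0 le_rfl (by rw [mul_zero]; exact zero_lt_one) (vd c.q 1) le_sup_left fun i => i.elim0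
    rw [K_zero h] at h1
    have h2 : Helper31.EC.h (vd c.q 1) ⊥ = Fintype.card (Fin (d + 1)) := h.ln.real
    rw [h_zero h1, Fintype.card_fin] at h2
    have h4 : (0 : ℝ) < ((d + 1 : ℕ) : ℝ) := by exact_mod_cast Nat.succ_pos d
    linarith
  · exact h0

/-- types of a flat corner -/
def tyF {c : CD S d N r} {H : Fin N → MvPolynomial (Fin (d + 1) ⊕ Fin N) (QS S)} {κ : ℝ} {kk : ℕ} {P : Po S d N}
    {σ : Fin r → VB S d kk N} (h : FlD c H κ P σ) (i : Fin r) : Ty S c.q P.z kk κ where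
  a := (σ i).a
  x := (σ i).x
  c := (σ i).c
  hy := fun l => by
    rw [← h.y l, ← h.t]
    exact (h.tp i).yi l
  hz := fun n => by
    rw [← h.t]
    exact (h.tp i).zi n
  ht := by
    rw [← h.t]
    exact (h.tp i).ht
  hF := fun n j => (h.tp i).hF n j

/-- THEOREM (property UR for flat corners) -/
theorem ur_flD {C : ∀ S : Sp, CD S d N r → Prop} (hC : Cls d N r w z ρ C) (hP : PR w C) {c : CD S d N r}
    (hc : C S c) {H : Fin N → MvPolynomial (Fin (d + 1) ⊕ Fin N) (QS S)} (hT : Tri w H) {κ : ℝ} (κ1 : κ ≤ 1) {kk : ℕ}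
    {P : Po S d N} {σ : Fin r → VB S d kk N} (h : FlD c H κ P σ) : UR S P.z (vd P.q 1) ρ κ := by
  have hax := hC.ax _ _ hc
  have hvz : ∀ k, k ≤ κ → vd P.z k = vd (c.cR H) k := by
    intro k hk
    unfold vd
    congr 1
    funext i
    exact (dg_eq_of_sub_mem (h.z i) hk (hk.trans κ1)).symm
  rw [h.q]
  have hr : Nonempty (Fin r) := ⟨⟨0, r_pos hax⟩⟩
  refine ur_of (O := c.O) (ξ := c.xi) (s := tyF h) (c := (N : ℝ) - ρ) ?_ κ1 (by rw [Fintype.card_fin])
  refine ⟨nlc_cor hax, le_sup_left, ?_, hax.ln.real, fun i => ?_, fun i => ?_, ?_, stqe_congr κ1 (hP S c hc H hT) h.z⟩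
  · have h1 : P.iZ ≤ P.iP := le_sup_right.trans le_sup_right
    exact h1.trans h.pO
  · have e1 : vd (tyF h i).x 1 ≤ Finset.univ.sup fun i => vd (c.u i) 1 := by
      refine le_trans ?_ (Finset.le_sup (f := fun i => vd (c.u i) 1) (Finset.mem_univ i))
      rw [vd_le]
      intro l
      show dg ((σ i).x l) 1 ≤ _
      rw [h.sx]
      exact dg_le_vd (c.u i) 1 l.succ
    exact ind_of hax.ln.r1 bot_le bot_le (e1.trans le_sup_left) le_sup_left
  · have h1 : (σ i).fv.iL ≤ c.xi i := le_sup_left.trans (h.xi i)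
    refine le_trans ?_ h1
    exact le_sup_left
  · intro T p E hE k h0 h1
    rw [hvz k h1]
    exact dv_cR hC hc hT T p E hE k h0 (h1.trans κ1)

theorem ur_cor {C : ∀ S : Sp, CD S d N r → Prop} (hC : Cls d N r w z ρ C) (hP : PR w C) {c : CD S d N r}
    (hc : C S c) {H : Fin N → MvPolynomial (Fin (d + 1) ⊕ Fin N) (QS S)} (hT : Tri w H) {κ : ℝ} (κ0 : 0 ≤ κ)
    (κ1 : κ ≤ 1) (hf : FlatH c κ H c.b c.xi) : UR S (c.cR H) (vd c.q 1) ρ κ := by
  obtain ⟨k, P, σ, -, h⟩ := exists_flD c (hC.ax _ _ hc).ln hT.real κ0 κ1 hf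
  have h1 := ur_flD hC hP hc hT κ1 h
  rw [h.q] at h1
  refine h1.congr κ1 fun i => ?_
  have h2 := (Id S κ).neg_mem (h.z i)
  rw [neg_sub] at h2
  exact h2

end

end Pool.Agent.Helper96.UQR
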