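import Pool.Agent.Helper31.EC.RobS
import Pool.Agent.Helper31.EC.Cpy
import Pool.Agent.Helper97.SL.Rj
import Pool.Agent.Helper46.LIN.Lift

/-! Exact entropy calculus: independence of the whole state at the finite level, copies. -/

set_option autoImplicit false

namespace Pool.Agent.Helper96.UQR

open Finset Filter Topology Pool.Agent.Helper69.RK Pool.Agent.Helper31.EC Pool.Agent.Helper40.EL
open Pool.Agent.Helper97.SL Pool.Agent.Helper46.LIN

noncomputable section

open Sp QS

/-- the variables `U` and `V` of the space `R` are independent given the base, up to `o(n)` bits, at the finite level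
(`V` need not be bounded) -/
def Ifn (R : Sp) {α β : ℕ → Type} (U : ∀ k, (R.F k).Ω → α k) (V : ∀ k, (R.F k).Ω → β k) : Prop :=
  Nul R (fun k => I (fc (F := R.F k) (Setoid.ker (U k))) (fc (F := R.F k) (Setoid.ker (V k))) ⊥)

theorem Ifn.of_le {R : Sp} {α β β' : ℕ → Type} {U : ∀ k, (R.F k).Ω → α k} {V : ∀ k, (R.F k).Ω → β k}
    {V' : ∀ k, (R.F k).Ω → β' k} (h : Ifn R U V)
    (hV : ∀ k, fc (F := R.F k) (Setoid.ker (V' k)) ≤ fc (F := R.F k) (Setoid.ker (V k))) : Ifn R U V' := by
  refine Nul.of_le h (Eventually.of_forall fun k => I_nonneg _ _ _) (Eventually.of_forall fun k => ?_)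
  exact I_mono_right ((hV k).trans le_sup_left)

/-- independence from a variable passes to its functions -/
theorem Ifn.comp {R : Sp} {α β β' : ℕ → Type} {U : ∀ k, (R.F k).Ω → α k} {V : ∀ k, (R.F k).Ω → β k}
    (h : Ifn R U V) (g : ∀ k, β k → β' k) : Ifn R U (fun k ω => g k (V k ω)) := by
  apply h.of_le
  intro k
  apply fc_mono
  intro ω ω' e
  have e' : V k ω = V k ω' := e
  show g k (V k ω) = g k (V k ω')
  rw [e']

/-- transport along a projection -/
theorem Ifn.pull {R R' : Sp} (J : Pj R' R) {α β : ℕ → Type} {U : ∀ k, (R.F k).Ω → α k} {V : ∀ k, (R.F k).Ω → β k}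
    (h : Ifn R U V) : Ifn R' (fun k ω => U k (J.π k ω)) (fun k ω => V k (J.π k ω)) := by
  unfold Ifn
  rw [Lab.nul_pj J]
  refine Nul.of_le h (Eventually.of_forall fun k => I_nonneg _ _ _) (Eventually.of_forall fun k => ?_)
  apply le_of_eq
  exact (J.fp k).I_map (fc (Setoid.ker (U k))) (fc (Setoid.ker (V k))) ⊥

/-- exact independence of bounded variables -/
theorem Ifn_of_I {R : Sp} {α β : ℕ → Type} {U : ∀ k, (R.F k).Ω → α k} {V : ∀ k, (R.F k).Ω → β k}
    (hU : Bdd U) (hV : Bdd V) (h : I (io U) (io V) ⊥ = 0) : Ifn R U V := by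
  have h1 : I (io U) (io V) ⊥ = ul (fun k => R.rt (fun k => Setoid.ker (U k)) R.tr k -
      R.rt (fun k => Setoid.ker (U k)) (fun k => Setoid.ker (V k)) k) := by
    rw [I_eq, sup_bot_eq, h_bot, H_io hU, h_io hU hV]
    exact (ul_sub (UB_rt hU.toInf _) (UB_rt hU.toInf _)).symm
  have h2 : UB (fun k => R.rt (fun k => Setoid.ker (U k)) R.tr k -
      R.rt (fun k => Setoid.ker (U k)) (fun k => Setoid.ker (V k)) k) :=
    (UB_rt hU.toInf _).sub (UB_rt hU.toInf _)
  have h3 := ul_tendsto h2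
  rw [← h1, h] at h3
  unfold Ifn Nul
  refine h3.congr fun k => ?_
  beta_reduce
  rw [I_eq, sup_bot_eq, h_bot, H_fc, h_fc]
  unfold Sp.rt Sp.tr
  rw [← sub_div, top_inf_eq]

/-- the finite amalgams of an amalgam -/
def fam {W S : Sp} (D : AmD W S) (k : ℕ) : FAm (W.F k) (S.F k) where
  α := D.α k
  f := D.f k
  g := D.g k
  law := D.law k
  Zr := D.Zr k
  hZ1 := D.hZ1 k
  hZ2 := D.hZ2 k

/-- in an amalgam the first space is independent of the second state given the common variable, also on events of the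
first space; hence a variable of the first space which is independent of the common variable on the event is
independent of the second state on the event -/
theorem am_Ifn {W S : Sp} (D : AmD W S) (E : ∀ k, (W.F k).Ω → Prop) (hE : 0 < ul (W.pr E)) {α : ℕ → Type}
    (U : ∀ k, (W.F k).Ω → α k) (h : Ifn (W.rest E) U D.f) :
    Ifn (D.sp.rest fun k ω => E k (D.p1.π k ω)) (fun k ω => U k (D.p1.π k ω)) (fun k => D.p2.π k) := by
  have h1 : Ifn (D.sp.rest fun k ω => E k (D.p1.π k ω)) (fun k ω => U k (D.p1.π k ω))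
      (fun k ω => D.f k (D.p1.π k ω)) := h.pull (rj D.p1 E)
  have hE' : 0 < ul (D.sp.pr fun k ω => E k (D.p1.π k ω)) := rj_pos D.p1 E hE
  have hU : ∀ (F : FSp) (P : F.Ω → Prop) (A : Setoid F.Ω), fc (F := F.rest P) A = F.rmap P (fc A) := fun _ _ _ => rfl
  have key : Nul (D.sp.rest fun k ω => E k (D.p1.π k ω)) (fun k =>
      I (fc (F := (D.sp.rest fun k ω => E k (D.p1.π k ω)).F k) (Setoid.ker fun ω => U k (D.p1.π k ω)))
        (fc (F := (D.sp.rest fun k ω => E k (D.p1.π k ω)).F k) (Setoid.ker (D.p2.π k)))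
        (fc (F := (D.sp.rest fun k ω => E k (D.p1.π k ω)).F k) (Setoid.ker fun ω => D.f k (D.p1.π k ω)))) := by
    have h2 : Nul D.sp (fun k =>
      I (fc (F := (D.sp.rest fun k ω => E k (D.p1.π k ω)).F k) (Setoid.ker fun ω => U k (D.p1.π k ω)))
        (fc (F := (D.sp.rest fun k ω => E k (D.p1.π k ω)).F k) (Setoid.ker (D.p2.π k)))
        (fc (F := (D.sp.rest fun k ω => E k (D.p1.π k ω)).F k) (Setoid.ker fun ω => D.f k (D.p1.π k ω)))) := by
      refine Nul.div_pr hE' (Nul_zero D.sp) (fun k => I_nonneg _ _ _) fun k => ?_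
      have h3 := (D.sp.F k).rmap_I_le (fun ω => E k (D.p1.π k ω)) (fc (Setoid.ker fun ω => U k (D.p1.π k ω)))
        (fc (Setoid.ker (D.p2.π k))) (fc (Setoid.ker fun ω => D.f k (D.p1.π k ω)))
      have h4 := (fam D k).indep (fc (Setoid.ker (U k))) (fc (⊥ : Setoid (S.F k).Ω))
      have h5 : I (fc (F := D.sp.F k) (Setoid.ker fun ω => U k (D.p1.π k ω)))
          (fc (F := D.sp.F k) (Setoid.ker (D.p2.π k)))
          (fc (F := D.sp.F k) (Setoid.ker fun ω => D.f k (D.p1.π k ω))) = 0 := h4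
      rw [h5] at h3
      exact h3
    exact h2
  refine Nul.of_le (h1.add key) (Eventually.of_forall fun k => I_nonneg _ _ _) (Eventually.of_forall fun k => ?_)
  obtain ⟨a, ha⟩ : ∃ a, a = fc (F := (D.sp.rest fun k ω => E k (D.p1.π k ω)).F k)
      (Setoid.ker fun ω => U k (D.p1.π k ω)) := ⟨_, rfl⟩
  obtain ⟨b, hb⟩ : ∃ b, b = fc (F := (D.sp.rest fun k ω => E k (D.p1.π k ω)).F k)
      (Setoid.ker fun ω => D.f k (D.p1.π k ω)) := ⟨_, rfl⟩
  obtain ⟨c, hc⟩ : ∃ c, c = fc (F := (D.sp.rest fun k ω => E k (D.p1.π k ω)).F k)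
      (Setoid.ker (D.p2.π k)) := ⟨_, rfl⟩
  have h6 : I a c ⊥ ≤ I a (b ⊔ c) ⊥ := I_mono_right (le_sup_right.trans le_sup_left)
  rw [I_chain_right, sup_bot_eq, ha, hb, hc] at h6
  exact h6

/-- COPIES over a finite family of functions; functions of the old configuration which are independent of the family
on an event are independent of the whole new state on the event, at the finite level -/
theorem exists_copyN {W S : Sp} (p : Pj W S) {ι : Type} [Fintype ι] (f : ι → QS S) :
    ∃ (D : Sp) (p1 : Pj D W) (p2 : Pj D S), (∀ i, p1.qs (p.qs (f i)) = p2.qs (f i)) ∧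
      (∀ x y, I (p1.map x) (p2.map y) (p1.map (p.map (vd f 1))) = 0) ∧
      ∀ (E : ∀ k, (W.F k).Ω → Prop) (hE : 0 < ul (W.pr E)) (α : ℕ → Type) (U : ∀ k, (W.F k).Ω → α k),
        Bdd (S := W.rest E) U → I (io (S := W.rest E) U) (restL E hE (p.map (vd f 1))) ⊥ = 0 →
        Ifn (D.rest fun k ω => E k (p1.π k ω)) (fun k ω => U k (p1.π k ω)) (fun k => p2.π k) := by
  classical
  set g : Fin (Fintype.card ι) → TR S := fun i => QS.rep (f ((Fintype.equivFin ι).symm i)) with hg
  have hgf : ∀ i, QS.mk (g i) = f ((Fintype.equivFin ι).symm i) := fun i => QS.mk_rep _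
  set V := (TR.vec g).cellv 1 with hV
  have hVb : Sp.Bdd V := (TR.vec g).bdd 1
  have hvd : Sp.io V = QS.vd f 1 := by
    show (TR.vec g).dg 1 = _
    rw [TR.vec_dg_eq]
    apply le_antisymm
    · apply Finset.sup_le
      intro i _
      rw [← QS.dg_mk (g i) le_rfl, hgf i]
      exact dg_le_vd f 1 _
    · rw [vd_le]
      intro i
      refine le_trans ?_ (Finset.le_sup (f := fun i => TR.dg (g i) 1) (Finset.mem_univ (Fintype.equivFin ι i)))
      rw [← QS.dg_mk (g (Fintype.equivFin ι i)) le_rfl, hgf, Equiv.symm_apply_apply]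
  refine ⟨(p.join V).sp, (p.join V).p1, (p.join V).p2, fun i => ?_, fun x y => ?_, fun E hE α U hU hI => ?_⟩
  · have h0 : f i = QS.mk (g (Fintype.equivFin ι i)) := by
      rw [hgf, Equiv.symm_apply_apply]
    rw [h0]
    show QS.mk ((p.join V).p1.tr (p.tr (g _))) = QS.mk ((p.join V).p2.tr (g _))
    rw [QS.mk_eq]
    refine ⟨fun _ _ => True, fun _ => 1, Sp.Typ_true, Sp.Sub_const _ zero_le_one,
      Eventually.of_forall fun k w hw _ => ?_⟩
    have h1 := p.join_supp V k w hw
    have h2 := (TR.vec g).cellv_close 1 k (p.π k w.1) w.2 h1 (Fintype.equivFin ι i)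
    have h3 : (p.join V).sp.dl 1 k = S.dl 1 k := by
      unfold Sp.dl
      rw [show ((p.join V).sp.F k).n = (W.F k).n from rfl, p.hn k]
    rw [one_mul, h3]
    exact h2
  · rw [← hvd]
    exact p.join_indep V hVb x y
  · apply am_Ifn (p.join V) E hE U
    have hb0 : Sp.Bdd (S := W) (fun k ω => V k (p.π k ω)) := (p.bdd_iff V).mpr hVb
    have hb1 : Sp.Bdd (S := W.rest E) (fun k ω => V k (p.π k ω)) := rest_VB E hb0
    have h1 : Ifn (W.rest E) U (fun k ω => V k (p.π k ω)) := by
      apply Ifn_of_I hU hb1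
      rw [← hvd, p.map_io, restL_io E hE hb0] at hI
      exact hI
    apply h1.of_le
    intro k
    apply fc_le
    intro ω ω' h h' hZ e
    have e' : V k (p.π k ω) = V k (p.π k ω') := e
    have h2 : (S.F k).Z (p.π k ω) (p.π k ω') :=
      (p.hZ k ω ω' ((W.F k).rest_supp (E k) ω h).1 ((W.F k).rest_supp (E k) ω' h').1).mp hZ
    show (V k (p.π k ω), Quotient.mk (S.F k).Z (p.π k ω)) = (V k (p.π k ω'), Quotient.mk (S.F k).Z (p.π k ω'))
    rw [e', Quotient.sound h2]

end

end Pool.Agent.Helper96.UQR
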