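import Pool.Agent.Helper96.UQR.Wlk

/-! Exact entropy calculus: quotients of a vector of top coordinates by a direction which depends on frozen data are
full on some event of an extension, if they are full for directions which are independent of the whole state (walks which
are free on an event, resampling). -/

set_option autoImplicit false

namespace Pool.Agent.Helper96.UQR

open Finset Filter Topology Pool.Agent.Helper69.RK Pool.Agent.Helper31.EC Sp QS Pool.Agent.Helper38.NS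
open Pool.Agent.Helper96.FLT Pool.Agent.Helper96.FWC
open Pool.Agent.Helper97.SL (rj rj_map rj_pos)

noncomputable section

/-- the digits of a family as the cells of a variable -/
theorem exists_cells {R : Sp} {ν : Type} [Fintype ν] (f : ν → QS R) :
    ∃ (α : ℕ → Type) (U : ∀ k, (R.F k).Ω → α k), Bdd U ∧ io U = vd f 1 := by
  classical
  set g : Fin (Fintype.card ν) → TR R := fun i => QS.rep (f ((Fintype.equivFin ν).symm i)) with hg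
  have hgf : ∀ i, QS.mk (g i) = f ((Fintype.equivFin ν).symm i) := fun i => QS.mk_rep _
  refine ⟨_, (TR.vec g).cellv 1, (TR.vec g).bdd 1, ?_⟩
  show (TR.vec g).dg 1 = _
  rw [TR.vec_dg_eq]
  apply le_antisymm
  · apply Finset.sup_le
    intro i _
    rw [← QS.dg_mk (g i) le_rfl, hgf i]
    exact dg_le_vd f 1 _
  · rw [vd_le]
    intro i
    refine le_trans ?_ (Finset.le_sup (f := fun i => TR.dg (g i) 1) (Finset.mem_univ (Fintype.equivFin ν i)))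
    rw [← QS.dg_mk (g (Fintype.equivFin ν i)) le_rfl, hgf, Equiv.symm_apply_apply]

variable {S : Sp} {ι ν : Type} [Fintype ι] [Fintype ν]

/-- THEOREM QUO, local form -/
theorem quoE {q : ι → QS S} {z : ν → QS S} {r c0 : ℝ} (w : WkE q z r) (hD : DV S q z r c0) (hS : STQE S q z r)
    (hr : r ≤ 1) (X : S.L) {k : ℝ} (h0 : 0 ≤ k) (h1 : k ≤ r) (hX : I (vd z k) X (vd q 1) = 0) (u : ν → QS S) (a : ν)
    (ha : IsUnit (u a)) (hu : vd u 1 ≤ X ⊔ vd q 1) :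
    ∃ (E : Sp) (s1 : Pj E S) (GE : ∀ k, (E.F k).Ω → Prop) (hGE : 0 < ul (E.pr GE)),
      ((Fintype.card ν : ℝ) - 1) * k ≤ Helper31.EC.h (restL GE hGE (s1.map (vd (wg z u a) k)))
        (restL GE hGE (s1.map (X ⊔ vd q 1))) := by
  have hk1 : k ≤ 1 := h1.trans hr
  obtain ⟨E, s2, s1, c, ci, -⟩ := exists_copyF w.p0 (Sum.elim q z)
  -- informations of the joint space
  obtain ⟨Q0, hQ0⟩ : ∃ Q0, Q0 = s1.map (vd q 1) := ⟨_, rfl⟩
  obtain ⟨Z0, hZ0⟩ : ∃ Z0, Z0 = s1.map (vd z 1) := ⟨_, rfl⟩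
  obtain ⟨Zk, hZk⟩ : ∃ Zk, Zk = s1.map (vd z k) := ⟨_, rfl⟩
  obtain ⟨X', hX'⟩ : ∃ X', X' = s1.map X := ⟨_, rfl⟩
  obtain ⟨M, hM⟩ : ∃ M, M = s2.map w.X := ⟨_, rfl⟩
  obtain ⟨Q1, hQ1⟩ : ∃ Q1, Q1 = s2.map (w.p1.map (vd q 1)) := ⟨_, rfl⟩
  obtain ⟨Z1, hZ1⟩ : ∃ Z1, Z1 = s2.map (w.p1.map (vd z k)) := ⟨_, rfl⟩
  have cq : ∀ i, s2.qs (w.p0.qs (q i)) = s1.qs (q i) := fun i => c (Sum.inl i)
  have cz : ∀ i, s2.qs (w.p0.qs (z i)) = s1.qs (z i) := fun i => c (Sum.inr i)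
  have eQ0 : s2.map (w.p0.map (vd q 1)) = Q0 := by
    rw [hQ0, ← w.p0.qs_vd, ← s1.qs_vd, ← s2.qs_vd]
    exact vd_congr cq 1
  have eZ : ∀ r, s2.map (w.p0.map (vd z r)) = s1.map (vd z r) := by
    intro r
    rw [← w.p0.qs_vd, ← s1.qs_vd, ← s2.qs_vd]
    exact vd_congr cz r
  have lZ : Zk ≤ Z0 := by
    rw [hZk, hZ0]
    exact s1.map_mono (vd_mono z hk1)
  -- independences
  have F1 : I Z0 M Q0 = 0 := by
    have h2 := s2.I_map (w.p0.map (vd z 1)) w.X (w.p0.map (vd q 1))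
    rw [w.he, eQ0, eZ, ← hZ0, ← hM] at h2
    exact h2
  have F2 : ∀ y, I X' (s2.map y) (Q0 ⊔ Z0) = 0 := by
    intro y
    have h2 := ci y X
    rw [vd_sum, w.p0.map_sup, s2.map_sup, eQ0, eZ, ← hZ0, ← hX'] at h2
    exact ind_symm h2
  have F3 : I Zk X' Q0 = 0 := by
    have h2 := s1.I_map (vd z k) X (vd q 1)
    rw [hX, ← hZk, ← hX', ← hQ0] at h2
    exact h2
  have lq : Q1 ≤ Q0 ⊔ M := by
    have h2 := s2.map_mono w.hq
    rw [s2.map_sup, eQ0, ← hM, ← hQ1] at h2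
    exact h2
  have lY : vd (fun i => s2.qs (w.Y i)) 1 ≤ Q0 ⊔ M := by
    rw [s2.qs_vd]
    have h2 := s2.map_mono w.hY
    rw [s2.map_sup, eQ0, ← hM] at h2
    exact h2
  have ez : ∀ i, s2.qs (w.p1.qs (z i)) - (s1.qs (z i) + s2.qs (w.Y i)) ∈ QS.Id E k := by
    intro i
    have h2 := (s2.qs_mem_Id hr).mpr (w.hz i)
    rw [map_sub, map_add, cz i] at h2
    exact QS.Id_anti h1 h2
  -- the digits of level k
  have G1 : I M (Z0 ⊔ X') Q0 = 0 := by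
    refine ind_add (ind_symm F1) (C' := Z0 ⊔ Q0) ?_ rfl
    have h2 := F2 w.X
    rw [← hM, sup_comm Q0 Z0] at h2
    exact ind_symm h2
  have G2 : I Zk (X' ⊔ M) Q0 = 0 := by
    refine ind_add F3 (C' := X' ⊔ Q0) ?_ rfl
    exact ind_symm (ind_of G1 (by order) (by order) (by order) (by order))
  have hZd : vd (fun i => s2.qs (w.p1.qs (z i))) k = Z1 := by
    rw [hZ1, ← w.p1.qs_vd, ← s2.qs_vd]
  have hZd0 : vd (fun i => s1.qs (z i)) k = Zk := by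
    rw [hZk, ← s1.qs_vd]
  have lZ1 : Z1 ≤ Zk ⊔ (Q0 ⊔ M) := by
    rw [← hZd, ← hZd0, vd_le]
    intro i
    rw [dg_eq_of_sub_mem (ez i) le_rfl hk1]
    have a1 := dg_add_le (s1.qs (z i)) (s2.qs (w.Y i)) hk1
    have a2 := dg_le_vd (fun i => s1.qs (z i)) k i
    have a3 := (dg_mono (s2.qs (w.Y i)) hk1).trans (dg_le_vd (fun i => s2.qs (w.Y i)) 1 i)
    beta_reduce at a2
    order
  have lZk : Zk ≤ Z1 ⊔ (Q0 ⊔ M) := by
    rw [← hZd, ← hZd0, vd_le]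
    intro i
    have a0 : s1.qs (z i) - (s2.qs (w.p1.qs (z i)) - s2.qs (w.Y i)) ∈ QS.Id E k := by
      have b1 := (QS.Id E k).neg_mem (ez i)
      have b2 : -(s2.qs (w.p1.qs (z i)) - (s1.qs (z i) + s2.qs (w.Y i))) =
          s1.qs (z i) - (s2.qs (w.p1.qs (z i)) - s2.qs (w.Y i)) := by ring
      rw [b2] at b1
      exact b1
    rw [dg_eq_of_sub_mem a0 le_rfl hk1]
    have a1 := dg_sub_le (s2.qs (w.p1.qs (z i))) (s2.qs (w.Y i)) hk1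
    have a2 := dg_le_vd (fun i => s2.qs (w.p1.qs (z i))) k i
    have a3 := (dg_mono (s2.qs (w.Y i)) hk1).trans (dg_le_vd (fun i => s2.qs (w.Y i)) 1 i)
    beta_reduce at a2
    order
  -- the event
  obtain ⟨GE, hGE0⟩ : ∃ GE : ∀ k, (E.F k).Ω → Prop, GE = fun k ω => w.G k (s2.π k ω) := ⟨_, rfl⟩
  have hGE : 0 < ul (E.pr GE) := by
    rw [hGE0]
    exact rj_pos s2 w.G w.hG
  refine ⟨E, s1, GE, hGE, ?_⟩
  obtain ⟨RQ0, hRQ0⟩ : ∃ x, x = restL GE hGE Q0 := ⟨_, rfl⟩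
  obtain ⟨RZ0, hRZ0⟩ : ∃ x, x = restL GE hGE Z0 := ⟨_, rfl⟩
  obtain ⟨RZk, hRZk⟩ : ∃ x, x = restL GE hGE Zk := ⟨_, rfl⟩
  obtain ⟨RX, hRX⟩ : ∃ x, x = restL GE hGE X' := ⟨_, rfl⟩
  obtain ⟨RM, hRM⟩ : ∃ x, x = restL GE hGE M := ⟨_, rfl⟩
  obtain ⟨RQ1, hRQ1⟩ : ∃ x, x = restL GE hGE Q1 := ⟨_, rfl⟩
  obtain ⟨RZ1, hRZ1⟩ : ∃ x, x = restL GE hGE Z1 := ⟨_, rfl⟩
  have rZ : RZk ≤ RZ0 := by
    rw [hRZk, hRZ0]
    exact restL_mono GE hGE lZ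
  have rq : RQ1 ≤ RQ0 ⊔ RM := by
    rw [hRQ1, hRQ0, hRM, ← restL_sup]
    exact restL_mono GE hGE lq
  have rZ1 : RZ1 ≤ RZk ⊔ (RQ0 ⊔ RM) := by
    rw [hRZ1, hRZk, hRQ0, hRM, ← restL_sup, ← restL_sup]
    exact restL_mono GE hGE lZ1
  have rZk : RZk ≤ RZ1 ⊔ (RQ0 ⊔ RM) := by
    rw [hRZ1, hRZk, hRQ0, hRM, ← restL_sup, ← restL_sup]
    exact restL_mono GE hGE lZk
  have rG2 : I RZk (RX ⊔ RM) RQ0 = 0 := by
    rw [hRX, hRZk, hRQ0, hRM, ← restL_sup]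
    exact I_rest_zero GE hGE G2
  have rF2 : ∀ y, I RX (restL GE hGE (s2.map y)) (RQ0 ⊔ RZ0) = 0 := by
    intro y
    rw [hRX, hRQ0, hRZ0, ← restL_sup]
    exact I_rest_zero GE hGE (F2 y)
  have rF4 : I RQ1 (RQ0 ⊔ RZ0) ⊥ = 0 := by
    have h2 := (rj s2 w.G).I_map (restL w.G w.hG (w.p1.map (vd q 1)))
      (restL w.G w.hG (w.p0.map (vd q 1 ⊔ vd z 1))) ⊥
    rw [w.hr, rj_map, rj_map, (rj s2 w.G).map_bot, w.p0.map_sup, s2.map_sup, eQ0, eZ, ← hZ0, ← hQ1] at h2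
    subst hGE0
    rw [hRQ1, hRQ0, hRZ0, ← restL_sup]
    exact h2
  -- the end point: count
  have hS1 : Helper31.EC.h RZ1 RQ1 = Helper31.EC.h RZk RQ0 := by
    have a1 := hD E (s2.comp w.p1) GE hGE k h0 h1
    have a2 := hD E s1 GE hGE k h0 h1
    rw [Pj.comp_map, Pj.comp_map, ← hZ1, ← hQ1, ← hRZ1, ← hRQ1] at a1
    rw [← hZk, ← hQ0, ← hRZk, ← hRQ0] at a2
    rw [a1, a2]
  have G3 : I RZ1 (RX ⊔ RM ⊔ RQ0) RQ1 = 0 := by
    apply ind_of_h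
    rw [hS1]
    have b1 : Helper31.EC.h RZk (RX ⊔ RM ⊔ RQ0) = Helper31.EC.h RZk RQ0 := I_zero_iff_h.mp rG2
    have b2 : RX ⊔ RM ⊔ RQ0 ⊔ RQ1 = RX ⊔ RM ⊔ RQ0 := by order
    rw [b2, ← b1]
    unfold Helper31.EC.h
    have b3 : RZk ⊔ (RX ⊔ RM ⊔ RQ0) = RZ1 ⊔ (RX ⊔ RM ⊔ RQ0) := by order
    rw [b3]
  have G4 : I RQ1 (RQ0 ⊔ RZ0 ⊔ RX) ⊥ = 0 := by
    refine ind_add rF4 (C' := RQ0 ⊔ RZ0 ⊔ ⊥) ?_ rfl
    rw [sup_bot_eq]
    have h2 := rF2 (w.p1.map (vd q 1))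
    rw [← hQ1, ← hRQ1] at h2
    exact ind_symm h2
  have G5 : I (RX ⊔ RQ0) (RQ1 ⊔ RZ1) ⊥ = 0 := by
    refine ind_add (C' := RQ1 ⊔ ⊥) (ind_symm (ind_of G4 le_rfl bot_le le_sup_left (by order))) ?_ rfl
    rw [sup_bot_eq]
    exact ind_symm (ind_of G3 le_rfl le_sup_right le_sup_left (by order))
  -- resampling of the state
  have hrd : ∀ i, ∃ g : QS S, z i - g ∈ QS.Id S k ∧ dg g 1 = dg (z i) k := fun i => exists_rd (z i) h0 hk1
  choose g hg1 hg2 using hrd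
  have hgd : vd g 1 = vd z k := by
    unfold vd
    congr 1
    funext i
    exact hg2 i
  obtain ⟨G, g1, g2, cg, cgi, cgn⟩ := exists_copyN (s2.comp w.p1) (Sum.elim q g)
  have cg1 : ∀ i, g1.qs (s2.qs (w.p1.qs (q i))) = g2.qs (q i) := by
    intro i
    have h2 := cg (Sum.inl i)
    rw [Pj.comp_qs] at h2
    exact h2
  have cg2 : ∀ i, g1.qs (s2.qs (w.p1.qs (g i))) = g2.qs (g i) := by
    intro i
    have h2 := cg (Sum.inr i)
    rw [Pj.comp_qs] at h2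
    exact h2
  have ecm : (s2.comp w.p1).map (vd (Sum.elim q g) 1) = Q1 ⊔ Z1 := by
    rw [vd_sum, hgd, Pj.comp_map, w.p1.map_sup, s2.map_sup, ← hQ1, ← hZ1]
  -- functions on the event
  obtain ⟨ur, hur⟩ : ∃ ur : ν → QS (E.rest GE), ur = fun i => QS.rest GE hGE (s1.qs (u i)) := ⟨_, rfl⟩
  obtain ⟨ze, hze⟩ : ∃ ze : ν → QS (E.rest GE), ze = fun i => QS.rest GE hGE (s2.qs (w.p1.qs (z i))) := ⟨_, rfl⟩
  obtain ⟨zs, hzs⟩ : ∃ zs : ν → QS (E.rest GE), zs = fun i => QS.rest GE hGE (s1.qs (z i)) := ⟨_, rfl⟩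
  obtain ⟨Yr, hYr⟩ : ∃ Yr : ν → QS (E.rest GE), Yr = fun i => QS.rest GE hGE (s2.qs (w.Y i)) := ⟨_, rfl⟩
  obtain ⟨V, hV⟩ : ∃ V, V = vd ur 1 := ⟨_, rfl⟩
  have hV' : V ≤ RX ⊔ RQ0 := by
    rw [hV, hur, QS.rest_vd, s1.qs_vd, hRX, hRQ0, ← restL_sup, hX', hQ0, ← s1.map_sup]
    exact restL_mono GE hGE (s1.map_mono hu)
  obtain ⟨α, U, hUb, hUio⟩ := exists_cells ur
  have hN := cgn GE hGE α U hUb (by
    rw [hUio, ← hV, ecm, restL_sup, ← hRQ1, ← hRZ1]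
    exact ind_symm (ind_of (ind_symm G5) le_rfl bot_le le_sup_left (by order)))
  have hua : IsUnit ((rj g1 GE).qs (ur a)) := by
    rw [hur]
    exact (((ha.map s1.qs).map (QS.rest GE hGE)).map (rj g1 GE).qs)
  have hvu : vd (fun i => (rj g1 GE).qs (ur i)) 1 = (rj g1 GE).map V := by
    rw [(rj g1 GE).qs_vd, hV]
  have hule : vd (fun i => (rj g1 GE).qs (ur i)) 1 ≤
      io (S := G.rest fun k ω => GE k (g1.π k ω)) (fun k ω => U k (g1.π k ω)) := by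
    rw [hvu, hV, ← hUio]
    exact le_of_eq ((rj g1 GE).map_io U)
  have key := hS G g2 (fun k ω => GE k (g1.π k ω)) (rj_pos g1 GE hGE) α (fun k ω => U k (g1.π k ω)) hN
    (fun i => (rj g1 GE).qs (ur i)) a hua hule k h0 h1
  -- back to the end point of the walk
  have e1 : vd (wg (fun i => QS.rest _ (rj_pos g1 GE hGE) (g2.qs (z i))) (fun i => (rj g1 GE).qs (ur i)) a) k =
      (rj g1 GE).map (vd (wg ze ur a) k) := by
    rw [← (rj g1 GE).qs_vd]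
    apply vd_le_of_mem hk1
    intro i
    rw [wg_map]
    unfold wg
    have a1 : ∀ j, QS.rest _ (rj_pos g1 GE hGE) (g2.qs (z j)) - (rj g1 GE).qs (ze j) ∈ QS.Id _ k := by
      intro j
      have b1 := (g2.qs_mem_Id hk1).mpr (hg1 j)
      have b2 := (g1.qs_mem_Id hk1).mpr ((s2.qs_mem_Id hk1).mpr ((w.p1.qs_mem_Id hk1).mpr (hg1 j)))
      rw [map_sub] at b1
      rw [map_sub, map_sub, map_sub, cg2 j] at b2
      have b3 := (QS.Id G k).sub_mem b1 b2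
      have b4 : g2.qs (z j) - g2.qs (g j) - (g1.qs (s2.qs (w.p1.qs (z j))) - g2.qs (g j)) =
          g2.qs (z j) - g1.qs (s2.qs (w.p1.qs (z j))) := by ring
      rw [b4] at b3
      have b5 := Pool.Agent.Helper38.NS.rest_mem_Id _ (rj_pos g1 GE hGE) hk1 b3
      rw [map_sub] at b5
      rw [hze]
      beta_reduce
      rw [rj_qs]
      exact b5
    have a2 := (QS.Id _ k).mul_mem_right ((rj g1 GE).qs (ur a)) (a1 i)
    have a3 := (QS.Id _ k).mul_mem_right ((rj g1 GE).qs (ur i)) (a1 a)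
    have a4 := (QS.Id _ k).sub_mem a2 a3
    have a5 : (QS.rest _ (rj_pos g1 GE hGE) (g2.qs (z i)) - (rj g1 GE).qs (ze i)) * (rj g1 GE).qs (ur a) -
        (QS.rest _ (rj_pos g1 GE hGE) (g2.qs (z a)) - (rj g1 GE).qs (ze a)) * (rj g1 GE).qs (ur i) =
        QS.rest _ (rj_pos g1 GE hGE) (g2.qs (z i)) * (rj g1 GE).qs (ur a) -
          QS.rest _ (rj_pos g1 GE hGE) (g2.qs (z a)) * (rj g1 GE).qs (ur i) -
        ((rj g1 GE).qs (ze i) * (rj g1 GE).qs (ur a) - (rj g1 GE).qs (ze a) * (rj g1 GE).qs (ur i)) := by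
      ring
    rw [a5] at a4
    exact a4
  have e2 : restL _ (rj_pos g1 GE hGE) (g2.map (vd q 1)) ⊔ vd (fun i => (rj g1 GE).qs (ur i)) 1 =
      (rj g1 GE).map (RQ1 ⊔ V) := by
    rw [hvu, (rj g1 GE).map_sup]
    congr 1
    rw [hRQ1, rj_map, hQ1, ← w.p1.qs_vd, ← s2.qs_vd, ← g1.qs_vd, ← g2.qs_vd]
    congr 1
    exact (vd_congr cg1 1).symm
  rw [e1, e2, (rj g1 GE).h_map] at key
  -- transport to the start
  obtain ⟨W1, hW1⟩ : ∃ W1, W1 = vd (wg ze ur a) k := ⟨_, rfl⟩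
  obtain ⟨W0, hW0⟩ : ∃ W0, W0 = vd (wg zs ur a) k := ⟨_, rfl⟩
  rw [← hW1] at key
  have hZe : vd ze k = RZ1 := by
    rw [hze, QS.rest_vd, hZd, hRZ1]
  have lW1 : W1 ≤ RZ1 ⊔ V := by
    rw [hW1, ← hZe, hV]
    exact wg_le _ _ a hk1
  have rY : vd Yr 1 ≤ RQ0 ⊔ RM := by
    rw [hYr, QS.rest_vd, hRQ0, hRM, ← restL_sup]
    exact restL_mono GE hGE lY
  have lwd : vd (wg Yr ur a) k ≤ RQ0 ⊔ RM ⊔ V := by
    refine (wg_le _ _ a hk1).trans (sup_le_sup ?_ hV.ge)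
    exact (vd_mono _ hk1).trans rY
  have rez : ∀ i, ze i - (zs i + Yr i) ∈ QS.Id (E.rest GE) k := by
    intro i
    have b1 := Pool.Agent.Helper38.NS.rest_mem_Id GE hGE hk1 (ez i)
    rw [map_sub, map_add] at b1
    rw [hze, hzs, hYr]
    exact b1
  have lW : W1 ≤ W0 ⊔ (RQ0 ⊔ RM ⊔ V) := by
    rw [hW1, hW0, vd_le]
    intro i
    have a0 : wg ze ur a i - (wg zs ur a i + wg Yr ur a i) ∈ QS.Id (E.rest GE) k := by
      have b1 := (QS.Id _ k).mul_mem_right (ur a) (rez i)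
      have b2 := (QS.Id _ k).mul_mem_right (ur i) (rez a)
      have b3 := (QS.Id _ k).sub_mem b1 b2
      have b4 : (ze i - (zs i + Yr i)) * ur a - (ze a - (zs a + Yr a)) * ur i =
          wg ze ur a i - (wg zs ur a i + wg Yr ur a i) := by
        unfold wg
        ring
      rw [b4] at b3
      exact b3
    rw [dg_eq_of_sub_mem a0 le_rfl hk1]
    refine (dg_add_le _ _ hk1).trans (sup_le_sup (dg_le_vd _ k i) ((dg_le_vd _ k i).trans lwd))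
  have k1 : Helper31.EC.h W1 (RX ⊔ RM ⊔ RQ0) = Helper31.EC.h W1 (RQ1 ⊔ V) := by
    have b1 : I (RZ1 ⊔ V) (RX ⊔ RM ⊔ RQ0) (RQ1 ⊔ V) = 0 :=
      ind_of G3 le_sup_left (by order) (by order) (by order)
    have b2 : I W1 (RX ⊔ RM ⊔ RQ0) (RQ1 ⊔ V) = 0 := ind_of b1 le_rfl (by order) (by order) (by order)
    have b3 := I_zero_iff_h.mp b2
    have b4 : RX ⊔ RM ⊔ RQ0 ⊔ (RQ1 ⊔ V) = RX ⊔ RM ⊔ RQ0 := by order
    rw [b4] at b3
    exact b3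
  have k2 : Helper31.EC.h W1 (RX ⊔ RM ⊔ RQ0) ≤ Helper31.EC.h W0 (RX ⊔ RM ⊔ RQ0) := by
    have b1 := h_mono (B := RX ⊔ RM ⊔ RQ0) lW
    have b2 := h_sup_le W0 (RQ0 ⊔ RM ⊔ V) (RX ⊔ RM ⊔ RQ0)
    have b3 : Helper31.EC.h (RQ0 ⊔ RM ⊔ V) (RX ⊔ RM ⊔ RQ0) = 0 := h_zero (by order)
    linarith
  have k3 : Helper31.EC.h W0 (RX ⊔ RM ⊔ RQ0) ≤ Helper31.EC.h W0 (RX ⊔ RQ0) := h_anti (by order)
  have k4 : Helper31.EC.h W0 (RX ⊔ RQ0) = Helper31.EC.h (restL GE hGE (s1.map (vd (wg z u a) k)))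
      (restL GE hGE (s1.map (X ⊔ vd q 1))) := by
    have b1 : W0 = restL GE hGE (s1.map (vd (wg z u a) k)) := by
      rw [hW0, ← s1.qs_vd, ← QS.rest_vd]
      congr 1
      funext i
      rw [wg_map, hzs, hur]
      unfold wg
      rw [map_sub, map_mul, map_mul]
    have b2 : RX ⊔ RQ0 = restL GE hGE (s1.map (X ⊔ vd q 1)) := by
      rw [s1.map_sup, restL_sup, ← hX', ← hQ0, ← hRX, ← hRQ0]
    rw [b1, b2]
  rw [← k4, ← key, ← k1]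
  exact k2.trans k3

end

end Pool.Agent.Helper96.UQR
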