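import Pool.Agent.Helper10.JET.Span
import Pool.Agent.Helper96.FWC.Quo
import Pool.Agent.Helper96.UQR.Fin

/-! Corner side of property UQ at the levels up to `r`: hypotheses, stability under extensions and events. -/

set_option autoImplicit false

namespace Pool.Agent.Helper96.UQR

open Finset Filter Topology Pool.Agent.Helper69.RK Pool.Agent.Helper31.EC Pool.Agent.Helper40.EL
open Pool.Agent.Helper97.SL (rj rj_map rj_pos)
open Pool.Agent.Helper46.LIN Pool.Agent.Helper38.NS Pool.Agent.Helper96.FWC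
open Pool.Agent.Helper10.JET

noncomputable section

open Sp QS

/-- the quotients by directions which are independent of the WHOLE state (finite level, on events of extensions) are
full at the levels up to `r` -/
def STQE (S : Sp) {ι ν : Type} [Fintype ι] [Fintype ν] (q : ι → QS S) (z : ν → QS S) (r : ℝ) : Prop :=
  ∀ (T : Sp) (p : Pj T S) (E : ∀ k, (T.F k).Ω → Prop) (hE : 0 < ul (T.pr E)) (α : ℕ → Type)
    (U : ∀ k, (T.F k).Ω → α k), Ifn (T.rest E) U (fun k => p.π k) →
    ∀ (u : ν → QS (T.rest E)) (a : ν), IsUnit (u a) → vd u 1 ≤ io (S := T.rest E) U → ∀ k : ℝ, 0 ≤ k → k ≤ r →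
      Helper31.EC.h (vd (wg (fun i => QS.rest E hE (p.qs (z i))) u a) k) (restL E hE (p.map (vd q 1)) ⊔ vd u 1) =
        ((Fintype.card ν : ℝ) - 1) * k

/-- (0.1) on all events of all extensions -/
def DV (S : Sp) {ι ν : Type} [Fintype ι] [Fintype ν] (q : ι → QS S) (z : ν → QS S) (r c : ℝ) : Prop :=
  ∀ (T : Sp) (p : Pj T S) (E : ∀ k, (T.F k).Ω → Prop) (hE : 0 < ul (T.pr E)) (k : ℝ), 0 ≤ k → k ≤ r →
    Helper31.EC.h (restL E hE (p.map (vd z k))) (restL E hE (p.map (vd q 1))) = c * k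

section stab

variable {S : Sp} {ι ν : Type} [Fintype ι] [Fintype ν] {q : ι → QS S} {z : ν → QS S} {r c : ℝ}

theorem DV.pull (h : DV S q z r c) {T : Sp} (p : Pj T S) :
    DV T (fun i => p.qs (q i)) (fun i => p.qs (z i)) r c := by
  intro R s E hE k h0 h1
  have h2 := h R (s.comp p) E hE k h0 h1
  rw [Pj.comp_map, Pj.comp_map] at h2
  rw [p.qs_vd, p.qs_vd]
  exact h2

theorem DV.rest (h : DV S q z r c) (G : ∀ k, (S.F k).Ω → Prop) (hG : 0 < ul (S.pr G)) :
    DV (S.rest G) (fun i => QS.rest G hG (q i)) (fun i => QS.rest G hG (z i)) r c := by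
  intro T p E hE k h0 h1
  rw [QS.rest_vd, QS.rest_vd, l_h p E hG hE]
  exact h (lift p) (liftP p) (lE p E) (lE_pos p E hG hE) k h0 h1

theorem STQE.pull (h : STQE S q z r) {T : Sp} (p : Pj T S) :
    STQE T (fun i => p.qs (q i)) (fun i => p.qs (z i)) r := by
  intro R s E hE α U hU u a ha hu k h0 h1
  have h2 := h R (s.comp p) E hE α U (hU.comp fun k => p.π k) u a ha hu k h0 h1
  rw [Pj.comp_map] at h2
  have e1 : (fun i => QS.rest E hE (s.qs (p.qs (z i)))) = fun i => QS.rest E hE ((s.comp p).qs (z i)) := by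
    funext i
    rw [Pj.comp_qs]
  rw [e1, p.qs_vd]
  exact h2

theorem lI_lJ_qs {W : Sp} {G : ∀ k, (S.F k).Ω → Prop} (p : Pj W (S.rest G)) (E : ∀ k, (W.F k).Ω → Prop)
    (f : QS (W.rest E)) : (lI p E).qs ((lJ p E).qs f) = f := by
  obtain ⟨f, rfl⟩ := mk_surj f
  rfl

theorem STQE.rest (h : STQE S q z r) (G : ∀ k, (S.F k).Ω → Prop) (hG : 0 < ul (S.pr G)) :
    STQE (S.rest G) (fun i => QS.rest G hG (q i)) (fun i => QS.rest G hG (z i)) r := by
  intro T p E hE α U hU u a ha hu k h0 h1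
  have hU1 := hU.pull (lJ p E)
  have hU2 : Ifn ((lift p).rest (lE p E)) (fun k ω => U k ((lJ p E).π k ω)) (fun k => (liftP p).π k) := by
    apply hU1.of_le
    intro k
    apply fc_le
    have e : ∀ ω, (((lift p).rest (lE p E)).F k).μ ω ≠ 0 →
        (liftP p).π k ω = p.π k ((lJ p E).π k ω) := by
      intro ω h
      have h1 : Sum.elim ((T.F k).restμ (E k)) (fun _ => (0 : ℝ)) ω ≠ 0 := by
        rw [← l_restμ p E k]
        exact h
      rcases ω with w | ω
      · rfl
      · exact absurd rfl h1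
    intro ω ω' m m' _ h'
    have h'' : p.π k ((lJ p E).π k ω) = p.π k ((lJ p E).π k ω') := h'
    show (liftP p).π k ω = (liftP p).π k ω'
    rw [e ω m, e ω' m', h'']
  have hu2 : vd (fun i => (lJ p E).qs (u i)) 1 ≤ io (S := (lift p).rest (lE p E)) (fun k ω => U k ((lJ p E).π k ω)) := by
    rw [(lJ p E).qs_vd]
    refine ((lJ p E).map_mono hu).trans (le_of_eq ?_)
    exact (lJ p E).map_io U
  have h2 := h (lift p) (liftP p) (lE p E) (lE_pos p E hG hE) α (fun k ω => U k ((lJ p E).π k ω)) hU2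
    (fun i => (lJ p E).qs (u i)) a (ha.map _) hu2 k h0 h1
  rw [← (lI p E).h_map, (lI p E).map_sup, l_map p E hG hE, ← (lI p E).qs_vd, ← (lI p E).qs_vd] at h2
  have e1 : (fun i => (lI p E).qs ((lJ p E).qs (u i))) = u := funext fun i => lI_lJ_qs p E (u i)
  have e2 : (fun i => (lI p E).qs (wg (fun i => QS.rest (lE p E) (lE_pos p E hG hE) ((liftP p).qs (z i)))
      (fun i => (lJ p E).qs (u i)) a i)) = wg (fun i => QS.rest E hE (p.qs (QS.rest G hG (z i)))) u a := by
    funext i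
    rw [wg_map]
    unfold wg
    beta_reduce
    rw [l_qs p E hG hE, l_qs p E hG hE, lI_lJ_qs, lI_lJ_qs]
  rw [e1, e2] at h2
  rw [QS.rest_vd]
  exact h2

end stab

section nlc

variable {S : Sp} {ι : Type} {O : S.L} {ξ : ι → S.L}

theorem NLC.pull (h : NLC O ξ) {T : Sp} (p : Pj T S) : NLC (p.map O) fun i => p.map (ξ i) := by
  intro W s E hE X L hX hO hξ
  refine h W (s.comp p) E hE X L ?_ ?_ ?_
  · intro y
    rw [Pj.comp_map]
    exact hX (p.map y)
  · rw [Pj.comp_map]
    exact hO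
  · intro i
    rw [Pj.comp_map]
    exact hξ i

theorem NLC.rest (h : NLC O ξ) (G : ∀ k, (S.F k).Ω → Prop) (hG : 0 < ul (S.pr G)) :
    NLC (restL G hG O) fun i => restL G hG (ξ i) := by
  intro W p E hE X L hX hO hξ
  have e1 : ∀ x : S.L, restL (lE p E) (lE_pos p E hG hE) ((liftP p).map x) =
      (lJ p E).map (restL E hE (p.map (restL G hG x))) := by
    intro x
    rw [← l_map p E hG hE, lJ_lI]
  have h1 := h (lift p) (liftP p) (lE p E) (lE_pos p E hG hE) ((lJ p E).map X) ((lJ p E).map L) ?_ ?_ ?_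
  · exact (lJ p E).map_le.mp h1
  · intro y
    rw [e1]
    have h2 := (lJ p E).I_map X (restL E hE (p.map (restL G hG y))) ⊥
    rw [(lJ p E).map_bot, hX] at h2
    exact h2
  · rw [e1, ← (lJ p E).map_sup]
    exact (lJ p E).map_mono hO
  · intro i
    rw [e1, ← (lJ p E).map_sup]
    exact (lJ p E).map_mono (hξ i)

end nlc

section types

variable {S : Sp} {d kk : ℕ} {ν : Type} [Fintype ν] {r : ℝ}

/-- a type of curves over straight base lines through the point `(q, z)`, `z` up to depth `r`; `q 0` is the height -/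
structure Ty (S : Sp) (q : Fin (d + 1) → QS S) (z : ν → QS S) (kk : ℕ) (r : ℝ) where
  a : Fin d → QS S
  x : Fin d → QS S
  c : ν → Fin (kk + 1) → QS S
  hy : ∀ i : Fin d, q i.succ = a i + q 0 * x i
  hz : ∀ i, z i - pe (c i) (q 0) ∈ QS.Id S r
  ht : Helper31.EC.h (dg (q 0) 1) (vd a 1 ⊔ vd x 1 ⊔ vd (fun i => c i 0) 1) = 1
  hF : ∀ i (j : Fin kk), dg (c i j.succ) 1 ≤ vd a 1 ⊔ vd x 1

theorem rest_pe (G : ∀ k, (S.F k).Ω → Prop) (hG : 0 < ul (S.pr G)) {k : ℕ} (c : Fin (k + 1) → QS S) (x : QS S) :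
    QS.rest G hG (pe c x) = pe (fun a => QS.rest G hG (c a)) (QS.rest G hG x) := by
  unfold pe
  rw [map_sum]
  refine Finset.sum_congr rfl fun a _ => ?_
  rw [map_mul, map_pow]

variable {q : Fin (d + 1) → QS S} {z : ν → QS S}

def Ty.pull (s : Ty S q z kk r) (hr : r ≤ 1) {T : Sp} (p : Pj T S) :
    Ty T (fun i => p.qs (q i)) (fun i => p.qs (z i)) kk r where
  a := fun i => p.qs (s.a i)
  x := fun i => p.qs (s.x i)
  c := fun i j => p.qs (s.c i j)
  hy := fun i => by rw [s.hy i, map_add, map_mul]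
  hz := fun i => by
    have h1 := (p.qs_mem_Id hr).mpr (s.hz i)
    rw [map_sub, pe_map] at h1
    exact h1
  ht := by
    rw [p.qs_vd, p.qs_vd, p.qs_vd, p.qs_dg, ← p.map_sup, ← p.map_sup, p.h_map]
    exact s.ht
  hF := fun i j => by
    rw [p.qs_vd, p.qs_vd, p.qs_dg, ← p.map_sup]
    exact p.map_mono (s.hF i j)

theorem real_rest (G : ∀ k, (S.F k).Ω → Prop) (hG : 0 < ul (S.pr G)) {x : QS S} {A : S.L}
    (h1 : Helper31.EC.h (dg x 1) A = 1) : Helper31.EC.h (dg (QS.rest G hG x) 1) (restL G hG A) = 1 := by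
  rw [QS.rest_dg]
  refine Sp.h_rest_max G hG h1 ?_
  intro E' hE'
  rw [← QS.rest_dg]
  exact (h_le_H _ _).trans (H_dg_le _ zero_le_one)

def Ty.rest (s : Ty S q z kk r) (hr : r ≤ 1) (G : ∀ k, (S.F k).Ω → Prop) (hG : 0 < ul (S.pr G)) :
    Ty (S.rest G) (fun i => QS.rest G hG (q i)) (fun i => QS.rest G hG (z i)) kk r where
  a := fun i => QS.rest G hG (s.a i)
  x := fun i => QS.rest G hG (s.x i)
  c := fun i j => QS.rest G hG (s.c i j)
  hy := fun i => by rw [s.hy i, map_add, map_mul]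
  hz := fun i => by
    have h1 := Pool.Agent.Helper38.NS.rest_mem_Id G hG hr (s.hz i)
    rw [map_sub, rest_pe] at h1
    exact h1
  ht := by
    have h1 := real_rest G hG s.ht
    rw [restL_sup, restL_sup, ← QS.rest_vd, ← QS.rest_vd, ← QS.rest_vd] at h1
    exact h1
  hF := fun i j => by
    rw [QS.rest_vd, QS.rest_vd, QS.rest_dg, ← restL_sup]
    exact restL_mono G hG (s.hF i j)

/-- hypotheses of the corner: `O` = all digits of the point, `ξ i` = the curves -/
structure QH (S : Sp) {ι : Type} (q : Fin (d + 1) → QS S) (z : ν → QS S) (O : S.L) (ξ : ι → S.L)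
    (s : ι → Ty S q z kk r) (c : ℝ) : Prop where
  nlc : NLC O ξ
  hq : vd q 1 ≤ O
  hz : vd z 1 ≤ O
  real : Rl q ⊥
  r1 : ∀ i, I (vd (s i).x 1) O ⊥ = 0
  hξ : ∀ i, vd (s i).a 1 ≤ ξ i
  dv : DV S q z r c
  stq : STQE S q z r

variable {ι : Type} {O : S.L} {ξ : ι → S.L} {s : ι → Ty S q z kk r} {c : ℝ}

theorem QH.pull (h : QH S q z O ξ s c) (hr : r ≤ 1) {T : Sp} (p : Pj T S) :
    QH T (fun i => p.qs (q i)) (fun i => p.qs (z i)) (p.map O) (fun i => p.map (ξ i))
      (fun i => (s i).pull hr p) c where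
  nlc := NLC.pull h.nlc p
  hq := by
    rw [p.qs_vd]
    exact p.map_mono h.hq
  hz := by
    rw [p.qs_vd]
    exact p.map_mono h.hz
  real := by
    have h1 := h.real.pull p
    rw [p.map_bot] at h1
    exact h1
  r1 := fun i => by
    show I (vd (fun j => p.qs ((s i).x j)) 1) (p.map O) ⊥ = 0
    have h1 := p.I_map (vd (s i).x 1) O ⊥
    rw [p.map_bot, h.r1 i] at h1
    rw [p.qs_vd]
    exact h1
  hξ := fun i => by
    show vd (fun j => p.qs ((s i).a j)) 1 ≤ p.map (ξ i)
    rw [p.qs_vd]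
    exact p.map_mono (h.hξ i)
  dv := h.dv.pull p
  stq := h.stq.pull p

theorem QH.rest (h : QH S q z O ξ s c) (hr : r ≤ 1) (G : ∀ k, (S.F k).Ω → Prop) (hG : 0 < ul (S.pr G)) :
    QH (S.rest G) (fun i => QS.rest G hG (q i)) (fun i => QS.rest G hG (z i)) (restL G hG O)
      (fun i => restL G hG (ξ i)) (fun i => (s i).rest hr G hG) c where
  nlc := NLC.rest h.nlc G hG
  hq := by
    rw [QS.rest_vd]
    exact restL_mono G hG h.hq
  hz := by
    rw [QS.rest_vd]
    exact restL_mono G hG h.hz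
  real := by
    have h1 := h.real.rest G hG
    rw [restL_bot] at h1
    exact h1
  r1 := fun i => by
    show I (vd (fun j => QS.rest G hG ((s i).x j)) 1) (restL G hG O) ⊥ = 0
    have h1 := I_rest_zero G hG (h.r1 i)
    rw [restL_bot] at h1
    rw [QS.rest_vd]
    exact h1
  hξ := fun i => by
    show vd (fun j => QS.rest G hG ((s i).a j)) 1 ≤ restL G hG (ξ i)
    rw [QS.rest_vd]
    exact restL_mono G hG (h.hξ i)
  dv := h.dv.rest G hG
  stq := h.stq.rest G hG

end types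

end

end Pool.Agent.Helper96.UQR
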