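import Mathlib

/-! Triangular polynomial changes of variables are invertible (weights with values in the reals). -/

set_option autoImplicit false

namespace Pool.Agent.Helper96.UQR

open MvPolynomial

noncomputable section

/-- polynomials with coefficients in a subring -/
def cfR {A σ : Type*} [CommRing A] (R₀ : Subring A) : Subring (MvPolynomial σ A) where
  carrier := {P | ∀ m, P.coeff m ∈ R₀}
  mul_mem' := by
    classical
    intro P Q hP hQ m
    rw [coeff_mul]
    exact R₀.sum_mem fun x _ => R₀.mul_mem (hP x.1) (hQ x.2)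
  one_mem' := by
    classical
    intro m
    rw [coeff_one]
    split_ifs
    · exact R₀.one_mem
    · exact R₀.zero_mem
  add_mem' := by
    intro P Q hP hQ m
    rw [coeff_add]
    exact R₀.add_mem (hP m) (hQ m)
  zero_mem' := by
    intro m
    rw [coeff_zero]
    exact R₀.zero_mem
  neg_mem' := by
    intro P hP m
    rw [coeff_neg]
    exact R₀.neg_mem (hP m)

theorem mem_cfR {A σ : Type*} [CommRing A] {R₀ : Subring A} {P : MvPolynomial σ A} :
    P ∈ cfR R₀ ↔ ∀ m, P.coeff m ∈ R₀ := Iff.rfl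

theorem X_mem_cfR {A σ : Type*} [CommRing A] (R₀ : Subring A) (i : σ) : (X i : MvPolynomial σ A) ∈ cfR R₀ := by
  classical
  intro m
  rw [coeff_X]
  split_ifs
  · exact R₀.one_mem
  · exact R₀.zero_mem

theorem C_mem_cfR {A σ : Type*} [CommRing A] {R₀ : Subring A} {c : A} (hc : c ∈ R₀) :
    (C c : MvPolynomial σ A) ∈ cfR R₀ := by
  classical
  intro m
  rw [coeff_C]
  split_ifs
  · exact hc
  · exact R₀.zero_mem

/-- substitution preserves the subring of coefficients -/
theorem bind_mem_cfR {A σ τ : Type*} [CommRing A] {R₀ : Subring A} {P : MvPolynomial σ A} (hP : P ∈ cfR R₀)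
    {G : σ → MvPolynomial τ A} (hG : ∀ i, (∃ m ∈ P.support, m i ≠ 0) → G i ∈ cfR R₀) : bind₁ G P ∈ cfR R₀ := by
  rw [P.as_sum, map_sum]
  apply (cfR R₀).sum_mem
  intro m hm
  rw [bind₁_monomial]
  apply (cfR R₀).mul_mem (C_mem_cfR (hP m))
  apply (cfR R₀).prod_mem
  intro i hi
  exact (cfR R₀).pow_mem (hG i ⟨m, hm, Finsupp.mem_support_iff.mp hi⟩) _

/-- the substitution only sees the variables which occur -/
theorem bind_congr {A σ τ : Type*} [CommRing A] {P : MvPolynomial σ A} {G G' : σ → MvPolynomial τ A}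
    (h : ∀ m, P.coeff m ≠ 0 → ∀ i, m i ≠ 0 → G i = G' i) : bind₁ G P = bind₁ G' P := by
  rw [P.as_sum, map_sum, map_sum]
  apply Finset.sum_congr rfl
  intro m hm
  rw [bind₁_monomial, bind₁_monomial]
  congr 1
  apply Finset.prod_congr rfl
  intro i hi
  rw [h m (mem_support_iff.mp hm) i (Finsupp.mem_support_iff.mp hi)]

/-- weights on a finite set -/
theorem wf_wgt {ν : Type} [Finite ν] (w : ν → ℝ) : WellFounded fun l j : ν => w l < w j := by
  have : IsTrans ν fun l j => w l < w j := ⟨fun _ _ _ h1 h2 => h1.trans h2⟩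
  have : Std.Irrefl (α := ν) fun l j => w l < w j := ⟨fun _ => lt_irrefl _⟩
  exact Finite.wellFounded_of_trans_of_irrefl _

section tri

variable {A : Type} [CommRing A] {α ν : Type} [Finite ν] (w : ν → ℝ) (H : ν → MvPolynomial (α ⊕ ν) A)

/-- THE INVERSE SUBSTITUTION -/
theorem exists_tri (low : ∀ j n, (H j).coeff n ≠ 0 → ∀ l, n (Sum.inr l) ≠ 0 → w l < w j) :
    ∃ G : α ⊕ ν → MvPolynomial (α ⊕ ν) A, (∀ a, G (Sum.inl a) = X (Sum.inl a)) ∧
      (∀ j, G (Sum.inr j) = X (Sum.inr j) + bind₁ G (H j)) ∧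
      (∀ R₀ : Subring A, (∀ j n, (H j).coeff n ∈ R₀) → ∀ i n, (G i).coeff n ∈ R₀) := by
  classical
  obtain ⟨g, hg⟩ : ∃ g : ν → MvPolynomial (α ⊕ ν) A, g = (wf_wgt w).fix fun j rec => X (Sum.inr j) +
      bind₁ (Sum.elim (fun a => X (Sum.inl a)) fun l => if h : w l < w j then rec l h else 0) (H j) := ⟨_, rfl⟩
  have hgj : ∀ j, g j = X (Sum.inr j) +
      bind₁ (Sum.elim (fun a => X (Sum.inl a)) fun l => if w l < w j then g l else 0) (H j) := by
    intro j
    rw [hg, WellFounded.fix_eq]
    congr 2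
  have hgb : ∀ j, bind₁ (Sum.elim (fun a => X (Sum.inl a)) fun l => if w l < w j then g l else 0) (H j) =
      bind₁ (Sum.elim (fun a => X (Sum.inl a)) g) (H j) := by
    intro j
    apply bind_congr
    intro m hm i hi
    rcases i with i | i
    · rfl
    · show (if w i < w j then g i else 0) = g i
      rw [if_pos (low j m hm i hi)]
  refine ⟨Sum.elim (fun a => X (Sum.inl a)) g, fun a => rfl, fun j => ?_, fun R₀ hR => ?_⟩
  · show g j = _
    rw [hgj, hgb]
  · have key : ∀ j, g j ∈ cfR R₀ := by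
      intro j
      induction j using (wf_wgt w).induction with
      | h j ih =>
        rw [hgj, hgb]
        apply (cfR R₀).add_mem (X_mem_cfR R₀ _)
        apply bind_mem_cfR (hR j)
        rintro (i | i) ⟨m, hm, hmi⟩
        · exact X_mem_cfR R₀ _
        · exact ih i (low j m (mem_support_iff.mp hm) i hmi)
    rintro (i | i)
    · exact X_mem_cfR R₀ _
    · exact key i

/-- TRIANGULAR CHANGES OF VARIABLES HAVE A RIGHT INVERSE -/
theorem tri_inv (low : ∀ j n, (H j).coeff n ≠ 0 → ∀ l, n (Sum.inr l) ≠ 0 → w l < w j) :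
    ∃ G : α ⊕ ν → MvPolynomial (α ⊕ ν) A, ∀ i, bind₁ G ((Sum.elim (fun a => X (Sum.inl a))
      (fun j => X (Sum.inr j) - H j) : α ⊕ ν → MvPolynomial (α ⊕ ν) A) i) = X i := by
  obtain ⟨G, h1, h2, -⟩ := exists_tri w H low
  refine ⟨G, ?_⟩
  rintro (i | i)
  · show bind₁ G (X (Sum.inl i)) = _
    rw [bind₁_X_right, h1]
  · show bind₁ G (X (Sum.inr i) - H i) = _
    rw [map_sub, bind₁_X_right, h2]
    ring

/-- the inverse on values: `y = x - H x` on the second coordinates implies `x = G y` -/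
theorem exists_tri_eval (low : ∀ j n, (H j).coeff n ≠ 0 → ∀ l, n (Sum.inr l) ≠ 0 → w l < w j) :
    ∃ G : ν → MvPolynomial (α ⊕ ν) A,
      (∀ R₀ : Subring A, (∀ j n, (H j).coeff n ∈ R₀) → ∀ i n, (G i).coeff n ∈ R₀) ∧
      (∀ i, bind₁ (Sum.elim (fun a => X (Sum.inl a)) G) ((Sum.elim (fun a => X (Sum.inl a))
        (fun j => X (Sum.inr j) - H j) : α ⊕ ν → MvPolynomial (α ⊕ ν) A) i) = X i) ∧
      ∀ (x : α → A) (y : ν → A) (j : ν),
        eval (Sum.elim x fun j => y j - eval (Sum.elim x y) (H j)) (G j) = y j := by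
  obtain ⟨G, h1, h2, h3⟩ := exists_tri w H low
  have hG : G = Sum.elim (fun a => X (Sum.inl a)) fun j => G (Sum.inr j) := by
    funext i
    rcases i with i | i
    · exact h1 i
    · rfl
  refine ⟨fun j => G (Sum.inr j), fun R₀ hR i n => h3 R₀ hR _ n, ?_, ?_⟩
  · rw [← hG]
    rintro (i | i)
    · show bind₁ G (X (Sum.inl i)) = _
      rw [bind₁_X_right, h1]
    · show bind₁ G (X (Sum.inr i) - H i) = _
      rw [map_sub, bind₁_X_right, h2]
      ring
  · intro x y j
    obtain ⟨v, hv⟩ : ∃ v : α ⊕ ν → A, v = Sum.elim x fun j => y j - eval (Sum.elim x y) (H j) := ⟨_, rfl⟩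
    rw [← hv]
    induction j using (wf_wgt w).induction with
    | h j ih =>
      beta_reduce
      rw [h2 j, map_add, eval_X]
      have e1 : eval v (bind₁ G (H j)) = eval (fun i => eval v (G i)) (H j) :=
        eval₂Hom_bind₁ (RingHom.id A) v G (H j)
      have e2 : eval (fun i => eval v (G i)) (H j) = eval (Sum.elim x y) (H j) := by
        rw [eval_eq, eval_eq]
        apply Finset.sum_congr rfl
        intro m hm
        congr 1
        apply Finset.prod_congr rfl
        intro i hi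
        rcases i with i | i
        · rw [h1 i, eval_X, hv]
          rfl
        · rw [ih i (low j m (mem_support_iff.mp hm) i (Finsupp.mem_support_iff.mp hi))]
          rfl
      rw [e1, e2, hv]
      show y j - eval (Sum.elim x y) (H j) + eval (Sum.elim x y) (H j) = y j
      ring

end tri

end

end Pool.Agent.Helper96.UQR
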