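import Pool.Agent.Helper96.UQR.Quo
import Pool.Agent.Helper96.FWC.Uq
import Pool.Agent.Helper50.VR.Ur
import Pool.Agent.Helper91.NS.HB

/-! Exact entropy calculus: from the corner to property UR (deficit and full quotients at the levels up to `r`). -/

set_option autoImplicit false

namespace Pool.Agent.Helper96.UQR

open Finset Filter Topology Pool.Agent.Helper69.RK Pool.Agent.Helper31.EC Sp QS Pool.Agent.Helper38.NS
open Pool.Agent.Helper96.FLT Pool.Agent.Helper96.FWC
open Pool.Agent.Helper97.SL (rj rj_map rj_pos)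
open Pool.Agent.Helper46.LIN
open Pool.Agent.Helper10.JET

noncomputable section

/-! ### events which agree eventually -/

theorem restμ_congr (F : FSp) {A B : F.Ω → Prop} (h : res F.μ A = res F.μ B) : F.restμ A = F.restμ B := by
  have h1 : F.pb A = F.pb B := by
    unfold FSp.pb
    rw [h]
  by_cases h2 : F.pb A = 0
  · rw [F.restμ_eq' A h2, F.restμ_eq' B (h1 ▸ h2)]
  · rw [F.restμ_eq A h2, F.restμ_eq B (h1 ▸ h2), h1, h]

theorem res_congr {Ω : Type} (μ : Ω → ℝ) {A B : Ω → Prop} (h : ∀ ω, μ ω ≠ 0 → (A ω ↔ B ω)) : res μ A = res μ B := by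
  funext ω
  by_cases h0 : μ ω = 0
  · unfold res
    rw [h0]
    simp
  · by_cases hA : A ω
    · rw [res_pos _ _ _ hA, res_pos _ _ _ ((h ω h0).mp hA)]
    · rw [res_neg _ _ _ hA, res_neg _ _ _ (fun hB => hA ((h ω h0).mpr hB))]

theorem ev_h {S : Sp} {A B : ∀ k, (S.F k).Ω → Prop} (hA : 0 < ul (S.pr A)) (hB : 0 < ul (S.pr B))
    (h : ∀ᶠ k in UF, ∀ ω, (S.F k).μ ω ≠ 0 → (A k ω ↔ B k ω)) (x y : S.L) :
    Helper31.EC.h (restL A hA x) (restL A hA y) = Helper31.EC.h (restL B hB x) (restL B hB y) := by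
  induction x using Sp.cl_ind with | _ X
  induction y using Sp.cl_ind with | _ Y
  have e1 : Helper31.EC.h (restL A hA (cl X)) (restL A hA (cl Y)) = ul ((S.rest A).rt X.1 Y.1) :=
    h_cl (restI A X) (restI A Y)
  have e2 : Helper31.EC.h (restL B hB (cl X)) (restL B hB (cl Y)) = ul ((S.rest B).rt X.1 Y.1) :=
    h_cl (restI B X) (restI B Y)
  rw [e1, e2]
  apply ul_congr
  filter_upwards [h] with k hk
  have h1 : (S.F k).restμ (A k) = (S.F k).restμ (B k) := restμ_congr (S.F k) (res_congr _ hk)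
  exact congrArg (fun μ : (S.F k).Ω → ℝ =>
    CH μ (Quotient.mk (X.1 k)) (Quotient.mk (Y.1 k ⊓ (S.F k).Z)) / (S.F k).n) h1

theorem ev_pr {S : Sp} {A B : ∀ k, (S.F k).Ω → Prop}
    (h : ∀ᶠ k in UF, ∀ ω, (S.F k).μ ω ≠ 0 → (A k ω ↔ B k ω)) : ul (S.pr A) = ul (S.pr B) := by
  apply ul_congr
  filter_upwards [h] with k hk
  show (S.F k).pb (A k) = (S.F k).pb (B k)
  unfold FSp.pb
  rw [res_congr _ hk]

/-- HEREDITARY SMALLNESS: an information which is small over another one is small over it on all events of extensions of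
a suitable event -/
theorem exists_small (S : Sp) (Y C : S.L) {ε : ℝ} (h0 : Helper31.EC.h Y C < ε) :
    ∃ (G : ∀ k, (S.F k).Ω → Prop) (hG : 0 < ul (S.pr G)), ∀ (T : Sp) (p : Pj T (S.rest G))
      (E : ∀ k, (T.F k).Ω → Prop) (hE : 0 < ul (T.pr E)),
        Helper31.EC.h (restL E hE (p.map (restL G hG Y))) (restL E hE (p.map (restL G hG C))) ≤ ε := by
  have hε : 0 < ε := (h_nonneg _ _).trans_lt h0
  obtain ⟨G, hG1, hG2⟩ := Pool.Agent.Helper91.NS.exists_hered S Y Y C ε hε
  have hI : ∀ {L : Type} [PM L] (A B : L), I A A B = Helper31.EC.h A B := by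
    intro L _ A B
    rw [I_eq, h_zero (le_sup_left : A ≤ A ⊔ B), sub_zero]
  have hG : 0 < ul (S.pr G) := by
    refine lt_of_lt_of_le ?_ hG1
    rw [I_eq, h_zero (le_sup_left : Y ≤ Y ⊔ C), sub_zero, sub_pos, div_lt_one hε]
    exact h0
  refine ⟨G, hG, fun T p E hE => ?_⟩
  rw [l_h p E hG hE]
  obtain ⟨E', hE'⟩ : ∃ E' : ∀ k, ((lift p).F k).Ω → Prop, E' = fun k ω => lE p E k ω ∧ G k ((liftP p).π k ω) :=
    ⟨_, rfl⟩
  have hev : ∀ᶠ k in UF, ∀ ω, ((lift p).F k).μ ω ≠ 0 → (lE p E k ω ↔ E' k ω) := by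
    have h1 := (ul_tendsto (UB_pr G)).eventually (lt_mem_nhds hG)
    filter_upwards [h1] with k hk ω hω
    rw [hE']
    refine ⟨fun h2 => ⟨h2, ?_⟩, fun h2 => h2.1⟩
    rcases ω with w | ω
    · have h3 : lc G k * (T.F k).μ w ≠ 0 := hω
      have h4 : (T.F k).μ w ≠ 0 := right_ne_zero_of_mul h3
      have h5 := p.supp k w h4
      exact ((S.F k).rest_supp (G k) _ h5).2 (ne_of_gt hk)
    · exact absurd h2 (fun h => h)
  have hpos : 0 < ul ((lift p).pr E') := by
    rw [← ev_pr hev]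
    exact lE_pos p E hG hE
  rw [ev_h (lE_pos p E hG hE) hpos hev]
  have h2 := hG2 (lift p) (liftP p) E' hpos (fun k ω _ h3 => by
    rw [hE'] at h3
    exact h3.2)
  rw [I_eq, h_zero (le_sup_left : restL E' hpos ((liftP p).map Y) ≤
    restL E' hpos ((liftP p).map Y) ⊔ restL E' hpos ((liftP p).map C)), sub_zero] at h2
  exact h2

section main

variable {S : Sp} {d kk : ℕ} {ν ι : Type} [Fintype ν] [Fintype ι] [Nonempty ι] {r c : ℝ}
variable {q : Fin (d + 1) → QS S} {z : ν → QS S} {O : S.L} {ξ : ι → S.L} {s : ι → Ty S q z kk r}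

/-- WALKS on a space which satisfies the hypotheses of the corner -/
theorem QH.wk (h : QH S q z O ξ s c) (hr : r ≤ 1) : Nonempty (WkE q z r) := by
  obtain ⟨C⟩ := exists_CQ (Sum.elim q z) d
  have hpt : vd q 1 ⊔ vd z 1 ≤ O := sup_le h.hq h.hz
  have hx1 : ∀ i, I (vd (s i).x 1) (vd q 1 ⊔ vd z 1) ⊥ = 0 := fun i =>
    I_zero_mono (h.r1 i) le_sup_left (hpt.trans le_sup_left)
  have hv : ∀ i, vd (s i).v 1 = vd (s i).x 1 := by
    intro i
    apply le_antisymm
    · rw [vd_le]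
      intro j
      unfold Ty.v
      induction j using Fin.cases with
      | zero =>
        rw [Fin.cons_zero]
        exact (mem_Kn.mp (Kn S 1 le_rfl ⊥).one_mem).trans bot_le
      | succ j =>
        rw [Fin.cons_succ]
        exact dg_le_vd (s i).x 1 j
    · rw [vd_le]
      intro j
      exact dg_le_vd (s i).v 1 j.succ
  have hft : ∀ i, vd (Fin.cons 0 (s i).a : Fin (d + 1) → QS S) 1 ≤ ξ i := by
    intro i
    rw [vd_le]
    intro j
    induction j using Fin.cases with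
    | zero =>
      rw [Fin.cons_zero]
      exact (mem_Kn.mp (Kn S 1 le_rfl ⊥).zero_mem).trans bot_le
    | succ j =>
      rw [Fin.cons_succ]
      exact (dg_le_vd (s i).a 1 j).trans (h.hξ i)
  obtain ⟨i, E, hE, hu⟩ := span_copies (u := fun i => (s i).v) (ft := fun i => Fin.cons 0 (s i).a) h.nlc h.hq h.real
    (t := q 0) (fun i j => by
      unfold Ty.v
      induction j using Fin.cases with
      | zero =>
        show q 0 = (Fin.cons 0 (s i).a : Fin (d + 1) → QS S) 0 + q 0 * (Fin.cons 1 (s i).x : Fin (d + 1) → QS S) 0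
        rw [Fin.cons_zero, Fin.cons_zero]
        ring
      | succ j =>
        show q j.succ = (Fin.cons 0 (s i).a : Fin (d + 1) → QS S) j.succ +
          q 0 * (Fin.cons 1 (s i).x : Fin (d + 1) → QS S) j.succ
        rw [Fin.cons_succ, Fin.cons_succ]
        exact (s i).hy j) hft
    (fun i => by
      show I (vd (s i).v 1) O ⊥ = 0
      rw [hv i]
      exact h.r1 i)
    (F := Sum.elim q z) (by rw [vd_sum]; exact hpt) C
  exact exists_wkE (fun l => s (i l)) C (fun l => hx1 (i l)) hr E hE hu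

/-- the quotients are full -/
theorem QH.quo (h : QH S q z O ξ s c) (hr : r ≤ 1) (X : S.L) {k : ℝ} (h0 : 0 ≤ k) (h1 : k ≤ r)
    (hX : I (vd z k) X (vd q 1) = 0) (u : ν → QS S) (a : ν) (ha : IsUnit (u a)) (hu : vd u 1 ≤ X ⊔ vd q 1) :
    ((Fintype.card ν : ℝ) - 1) * k ≤ Helper31.EC.h (vd (wg z u a) k) (X ⊔ vd q 1) := by
  have hk1 : k ≤ 1 := h1.trans hr
  by_contra hcon
  rw [not_le] at hcon
  obtain ⟨ε, e1, e2⟩ := exists_between hcon
  obtain ⟨G, hG, hsm⟩ := exists_small S _ _ e1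
  have h' := h.rest hr G hG
  obtain ⟨w⟩ := h'.wk hr
  have hX' : I (vd (fun i => QS.rest G hG (z i)) k) (restL G hG X) (vd (fun i => QS.rest G hG (q i)) 1) = 0 := by
    rw [QS.rest_vd, QS.rest_vd]
    exact I_rest_zero G hG hX
  have hu' : vd (fun i => QS.rest G hG (u i)) 1 ≤ restL G hG X ⊔ vd (fun i => QS.rest G hG (q i)) 1 := by
    rw [QS.rest_vd, QS.rest_vd, ← restL_sup]
    exact restL_mono G hG hu
  obtain ⟨E, s1, GE, hGE, h2⟩ := quoE w h'.dv h'.stq hr (restL G hG X) h0 h1 hX' (fun i => QS.rest G hG (u i)) a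
    (ha.map (QS.rest G hG)) hu'
  have e3 : vd (wg (fun i => QS.rest G hG (z i)) (fun i => QS.rest G hG (u i)) a) k = restL G hG (vd (wg z u a) k) := by
    rw [← QS.rest_vd]
    congr 1
    funext i
    unfold wg
    rw [map_sub, map_mul, map_mul]
  rw [e3, QS.rest_vd, ← restL_sup] at h2
  have h3 := hsm E s1 GE hGE
  linarith

/-- THEOREM: property UR of the top coordinates of a corner -/
theorem ur_of (h : QH S q z O ξ s c) (hr : r ≤ 1) {ρ : ℝ} (hc : c = (Fintype.card ν : ℝ) - ρ) :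
    Pool.Agent.Helper50.VR.UR S z (vd q 1) ρ r where
  U := by
    intro T p E hE k h0 h1
    rw [h.dv T p E hE k h0 h1, hc]
  Q := by
    intro T p X w a k h0 h1 h2 h3 h4
    apply le_antisymm
    · exact wg_card (fun i => p.qs (z i)) w a h0 (h1.trans hr) _
    · have h5 := (h.pull hr p).quo hr X h0 h1 (by rw [p.qs_vd, p.qs_vd]; exact h2) w a h4 (by
        rw [p.qs_vd, vd_le]
        intro i
        rw [sup_comm]
        exact h3 i)
      rw [p.qs_vd, sup_comm X] at h5
      exact h5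

end main

end

end Pool.Agent.Helper96.UQR
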