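import Pool.Agent.Helper96.UQR.St
import Pool.Agent.Helper96.FWC.Wlk

/-! Exact entropy calculus: free walks over a flat base. The directions of the walk are those of a bush whose determinant
is a unit on an event of positive probability, all positions are reached by parallel curves; the top coordinates are
followed up to the depth `r`. -/

set_option autoImplicit false

namespace Pool.Agent.Helper96.UQR

open Finset Filter Topology Pool.Agent.Helper69.RK Pool.Agent.Helper31.EC Sp QS Pool.Agent.Helper38.NS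
open Pool.Agent.Helper96.FLT
open Pool.Agent.Helper97.SL (rj rj_map rj_pos)
open Pool.Agent.Helper96.FWC (vd_fin0 vd_zero vd_snoc H_vd_le ind_end ind_start vd_point)

noncomputable section

variable {S : Sp} {d k : ℕ} {ν : Type} [Fintype ν] {ρ : ℝ}

namespace Ty

variable {q : Fin (d + 1) → QS S} {z : ν → QS S} (s : Ty S q z k ρ)

def iX : S.L := vd s.x 1
def iL : S.L := vd s.a 1 ⊔ vd s.x 1
def iA : S.L := vd s.a 1 ⊔ vd s.x 1 ⊔ vd (fun i => s.c i 0) 1

/-- direction -/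
def v : Fin (d + 1) → QS S := Fin.cons 1 s.x

theorem la : s.iL ≤ vd q 1 ⊔ s.iX := by
  unfold iL iX
  apply sup_le _ le_sup_right
  rw [vd_le]
  intro i
  have h1 : s.a i = q i.succ - q 0 * s.x i := by
    rw [s.hy i]
    ring
  rw [h1]
  have b1 := dg_sub_le (q i.succ) (q 0 * s.x i) (r := 1) le_rfl
  have b2 := dg_mul_le (q 0) (s.x i) (r := 1) le_rfl
  have b3 := dg_le_vd q 1 i.succ
  have b4 := dg_le_vd q 1 0
  have b5 := dg_le_vd s.x 1 i
  order

theorem lc (i : ν) (j : Fin (k + 1)) : dg (s.c i j) 1 ≤ s.iA := by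
  unfold iA
  induction j using Fin.cases with
  | zero => exact (dg_le_vd (fun i => s.c i 0) 1 i).trans le_sup_right
  | succ j => exact (s.hF i j).trans le_sup_left

end Ty

theorem rj_qs {T : Sp} (p : Pj T S) (E : ∀ k, (S.F k).Ω → Prop) (hE : 0 < ul (S.pr E)) (f : QS S) :
    (rj p E).qs (QS.rest E hE f) = QS.rest _ (rj_pos p E hE) (p.qs f) := by
  obtain ⟨f, rfl⟩ := mk_surj f
  rfl

section bush

variable {q : Fin (d + 1) → QS S} {z : ν → QS S} (s : Fin (d + 1) → Ty S q z k ρ) (C : CQ S (Sum.elim q z) d)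
  (hx1 : ∀ i, I (vd (s i).x 1) (vd q 1 ⊔ vd z 1) ⊥ = 0)

/-- all directions of the bush -/
def xs : Fin (d + 1) × Fin d → QS C.W := fun j => (C.p j.1).qs ((s j.1).x j.2)

theorem C_q (i j : Fin (d + 1)) (l : Fin (d + 1)) : (C.p i).qs (q l) = (C.p j).qs (q l) := C.com i j (Sum.inl l)

theorem C_z (i j : Fin (d + 1)) (l : ν) : (C.p i).qs (z l) = (C.p j).qs (z l) := C.com i j (Sum.inr l)

theorem C_v : C.v = (C.p 0).map (vd q 1) ⊔ (C.p 0).map (vd z 1) := by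
  unfold CQ.v
  rw [vd_point, (C.p 0).map_sup]

theorem xs_sup : vd (xs s C) 1 = Finset.univ.sup fun i => (C.p i).map (s i).iX := by
  apply le_antisymm
  · rw [vd_le]
    rintro ⟨i, l⟩
    refine le_trans ?_ (Finset.le_sup (f := fun i => (C.p i).map (s i).iX) (Finset.mem_univ i))
    unfold Ty.iX
    rw [← (C.p i).qs_vd]
    exact dg_le_vd (fun l => (C.p i).qs ((s i).x l)) 1 l
  · apply Finset.sup_le
    intro i _
    unfold Ty.iX
    rw [← (C.p i).qs_vd, vd_le]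
    intro l
    exact dg_le_vd (xs s C) 1 (i, l)

include hx1 in
/-- subfamilies of the directions are independent of the point -/
theorem xs_v (t : Finset (Fin (d + 1))) : I (t.sup fun i => (C.p i).map (s i).iX) C.v ⊥ = 0 := by
  apply ind_of_h
  rw [sup_bot_eq, C.h_sup t fun i => (s i).iX, h_bot]
  have h1 : ∀ i, h (s i).iX (vd (Sum.elim q z) 1) = H (s i).iX := by
    intro i
    have h2 := I_zero_iff_h.mp (hx1 i)
    rw [sup_bot_eq, h_bot] at h2
    rw [vd_point]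
    exact h2
  rw [Finset.sum_congr rfl fun i _ => h1 i]
  have h3 := h_finsup_le t (fun i => (C.p i).map (s i).iX) ⊥
  rw [h_bot] at h3
  refine h3.trans (le_of_eq (Finset.sum_congr rfl fun i _ => ?_))
  rw [h_bot, (C.p i).H_map]

include hx1 in
theorem xs_point : I (vd (xs s C) 1) C.v ⊥ = 0 := by
  rw [xs_sup]
  exact xs_v s C hx1 Finset.univ

include hx1 in
/-- the height is real over one curve and all directions -/
theorem ht_bush (m : Fin (d + 1)) : h (dg ((C.p 0).qs (q 0)) 1) ((C.p m).map (s m).iA ⊔ vd (xs s C) 1) = 1 := by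
  classical
  obtain ⟨O, hO⟩ : ∃ O, O = (Finset.univ.erase m).sup fun i => (C.p i).map (s i).iX := ⟨_, rfl⟩
  have h1 : I O C.v ⊥ = 0 := by
    rw [hO]
    exact xs_v s C hx1 _
  have h2 : I O ((C.p m).map (s m).iA) C.v = 0 := by
    have h3 := C.I_sup (s := Finset.univ.erase m) (t := {m}) (by simp)
      (fun i => if i = m then (s m).iA else (s i).iX)
    rw [Finset.sup_singleton] at h3
    simp only [if_true] at h3
    have h4 : ((Finset.univ.erase m).sup fun i => (C.p i).map (if i = m then (s m).iA else (s i).iX)) = O := by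
      rw [hO]
      apply Finset.sup_congr rfl
      intro i hi
      rw [if_neg (Finset.ne_of_mem_erase hi)]
    rw [h4] at h3
    exact h3
  have h5 : I O (C.v ⊔ (C.p m).map (s m).iA) ⊥ = 0 := ind_add h1 (by rw [sup_bot_eq]; exact h2) rfl
  have hX : vd (xs s C) 1 ≤ O ⊔ (C.p m).map (s m).iA := by
    rw [xs_sup]
    apply Finset.sup_le
    intro i _
    by_cases hi : i = m
    · subst hi
      refine le_trans ((C.p i).map_mono ?_) le_sup_right
      unfold Ty.iX Ty.iA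
      order
    · refine le_trans ?_ (le_sup_left : O ≤ _)
      rw [hO]
      exact Finset.le_sup (f := fun i => (C.p i).map (s i).iX) (Finset.mem_erase.mpr ⟨hi, Finset.mem_univ i⟩)
  have hT : dg ((C.p 0).qs (q 0)) 1 ≤ C.v := by
    rw [C_v, ← (C.p 0).qs_vd]
    exact (dg_le_vd (fun i => (C.p 0).qs (q i)) 1 0).trans le_sup_left
  have h6 : I (dg ((C.p 0).qs (q 0)) 1) O ((C.p m).map (s m).iA) = 0 :=
    ind_symm (ind_of h5 bot_le (by order) (by order) (by order))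
  have h7 := I_zero_iff_h.mp h6
  have h8 : h (dg ((C.p 0).qs (q 0)) 1) ((C.p m).map (s m).iA) = 1 := by
    rw [C_q C 0 m 0, (C.p m).qs_dg, (C.p m).h_map]
    exact (s m).ht
  apply le_antisymm (h_dg_le_one _ _)
  have h9 : h (dg ((C.p 0).qs (q 0)) 1) (O ⊔ (C.p m).map (s m).iA) ≤
      h (dg ((C.p 0).qs (q 0)) 1) ((C.p m).map (s m).iA ⊔ vd (xs s C) 1) := h_anti (by order)
  rw [h7, h8] at h9
  exact h9

/-- the curve number `m` and all directions -/
def fml (m : Fin (d + 1)) : Fin d ⊕ Fin d ⊕ (ν × Fin (k + 1)) ⊕ (Fin (d + 1) × Fin d) → QS C.W :=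
  Sum.elim (fun i => (C.p m).qs ((s m).a i)) (Sum.elim (fun i => (C.p m).qs ((s m).x i))
    (Sum.elim (fun j => (C.p m).qs ((s m).c j.1 j.2)) (xs s C)))

theorem fml_le (m : Fin (d + 1)) : vd (fml s C m) 1 ≤ (C.p m).map (s m).iA ⊔ vd (xs s C) 1 := by
  unfold fml
  rw [vd_sum, vd_sum, vd_sum]
  have h1 : vd (fun i => (C.p m).qs ((s m).a i)) 1 ≤ (C.p m).map (s m).iA := by
    rw [(C.p m).qs_vd]
    apply (C.p m).map_mono
    unfold Ty.iA
    order
  have h2 : vd (fun i => (C.p m).qs ((s m).x i)) 1 ≤ (C.p m).map (s m).iA := by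
    rw [(C.p m).qs_vd]
    apply (C.p m).map_mono
    unfold Ty.iA
    order
  have h3 : vd (fun j : ν × Fin (k + 1) => (C.p m).qs ((s m).c j.1 j.2)) 1 ≤ (C.p m).map (s m).iA := by
    rw [vd_le]
    intro j
    rw [(C.p m).qs_dg]
    exact (C.p m).map_mono ((s m).lc j.1 j.2)
  order

include hx1 in
theorem ht_fml (m : Fin (d + 1)) : h (dg ((C.p 0).qs (q 0)) 1) (vd (fml s C m) 1) = 1 := by
  apply le_antisymm (h_dg_le_one _ _)
  have h1 := h_anti (A := dg ((C.p 0).qs (q 0)) 1) (fml_le s C m)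
  rw [ht_bush s C hx1] at h1
  exact h1

/-- the direction number `m` of the bush -/
def vv (m : Fin (d + 1)) (l : Fin (d + 1)) : QS C.W := (C.p m).qs ((s m).v l)

/-- `n` steps: `r0` is the bush at the start, `r` the bush at the end, `τ` are the lengths of the steps -/
structure Chn (n : ℕ) (hn : n ≤ d + 1) where
  D : Sp
  r0 : Pj D C.W
  r : Pj D C.W
  τ : Fin n → QS D
  Y : ν → QS D
  cx : ∀ j, r0.qs (xs s C j) = r.qs (xs s C j)
  cq : ∀ l, r.qs ((C.p 0).qs (q l)) = r0.qs ((C.p 0).qs (q l)) +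
    ∑ m : Fin n, τ m * r0.qs (vv s C (Fin.castLE hn m) l)
  cz : ∀ i, r.qs ((C.p 0).qs (z i)) - (r0.qs ((C.p 0).qs (z i)) + Y i) ∈ QS.Id D ρ
  lY : vd Y 1 ≤ r0.map ((C.p 0).map (vd q 1)) ⊔ (r0.map (vd (xs s C) 1) ⊔ vd τ 1)
  hτ : ∀ y : C.W.L, h (vd τ 1) (r0.map y) = n

/-- no step -/
def chn0 : Chn s C 0 (Nat.zero_le _) where
  D := C.W
  r0 := Pj.id _
  r := Pj.id _
  τ := fun i => i.elim0
  Y := fun _ => 0
  cx := fun _ => rfl
  cq := fun l => by rw [Finset.univ_eq_empty, Finset.sum_empty, add_zero]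
  cz := fun i => by
    rw [add_zero, sub_self]
    exact (QS.Id _ ρ).zero_mem
  lY := by
    rw [vd_zero]
    exact bot_le
  hτ := fun y => by
    rw [vd_fin0]
    rw [h_zero bot_le]
    simp

theorem vv_le (m l : Fin (d + 1)) : dg (vv s C m l) 1 ≤ vd (xs s C) 1 := by
  unfold vv Ty.v
  induction l using Fin.cases with
  | zero =>
    rw [Fin.cons_zero, map_one]
    exact (mem_Kn.mp (Kn C.W 1 le_rfl ⊥).one_mem).trans bot_le
  | succ l =>
    rw [Fin.cons_succ]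
    exact dg_le_vd (xs s C) 1 (m, l)

variable {s C}

/-- positions are known to the start, the directions and the lengths -/
theorem Chn.lQ {n : ℕ} {hn : n ≤ d + 1} (w : Chn s C n hn) : w.r.map ((C.p 0).map (vd q 1)) ≤
    w.r0.map ((C.p 0).map (vd q 1)) ⊔ (w.r0.map (vd (xs s C) 1) ⊔ vd w.τ 1) := by
  rw [← (C.p 0).qs_vd, ← w.r.qs_vd, ← w.r0.qs_vd, vd_le]
  intro l
  rw [w.cq l]
  have h0 := dg_le_vd (fun l => w.r0.qs ((C.p 0).qs (q l))) 1 l
  beta_reduce at h0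
  refine (dg_add_le _ _ le_rfl).trans (sup_le (h0.trans le_sup_left) ?_)
  refine le_trans ?_ le_sup_right
  have h1 : ∀ m : Fin n, w.τ m * w.r0.qs (vv s C (Fin.castLE hn m) l) ∈
      Kn w.D 1 le_rfl (w.r0.map (vd (xs s C) 1) ⊔ vd w.τ 1) := by
    intro m
    apply (Kn w.D 1 le_rfl _).mul_mem
    · exact (dg_le_vd w.τ 1 m).trans le_sup_right
    · rw [mem_Kn, w.r0.qs_dg]
      exact (w.r0.map_mono (vv_le s C _ l)).trans le_sup_left
  exact (Kn w.D 1 le_rfl _).sum_mem fun m _ => h1 m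

theorem Chn.eX {n : ℕ} {hn : n ≤ d + 1} (w : Chn s C n hn) : w.r.map (vd (xs s C) 1) = w.r0.map (vd (xs s C) 1) := by
  rw [← w.r.qs_vd, ← w.r0.qs_vd]
  exact vd_congr (fun j => (w.cx j).symm) 1

include hx1 in
/-- one more step -/
theorem Chn.step (hρ : ρ ≤ 1) {n : ℕ} {hn : n ≤ d + 1} (w : Chn s C n hn) (hn' : n + 1 ≤ d + 1) : Nonempty (Chn s C (n + 1) hn') := by
  obtain ⟨m, hm⟩ : ∃ m : Fin (d + 1), m = Fin.castLE hn' (Fin.last n) := ⟨_, rfl⟩
  obtain ⟨E, s1, s2, c, ci, -⟩ := exists_copyF w.r (fml s C m)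
  obtain ⟨T', hT'⟩ : ∃ T', T' = s2.qs ((C.p 0).qs (q 0)) := ⟨_, rfl⟩
  obtain ⟨T0, hT0⟩ : ∃ T0, T0 = s1.qs (w.r.qs ((C.p 0).qs (q 0))) := ⟨_, rfl⟩
  have ca : ∀ i, s1.qs (w.r.qs ((C.p m).qs ((s m).a i))) = s2.qs ((C.p m).qs ((s m).a i)) := fun i => c (Sum.inl i)
  have cx : ∀ i, s1.qs (w.r.qs ((C.p m).qs ((s m).x i))) = s2.qs ((C.p m).qs ((s m).x i)) :=
    fun i => c (Sum.inr (Sum.inl i))
  have cc : ∀ i j, s1.qs (w.r.qs ((C.p m).qs ((s m).c i j))) = s2.qs ((C.p m).qs ((s m).c i j)) :=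
    fun i j => c (Sum.inr (Sum.inr (Sum.inl (i, j))))
  have cX : ∀ j, s1.qs (w.r.qs (xs s C j)) = s2.qs (xs s C j) := fun j => c (Sum.inr (Sum.inr (Sum.inr j)))
  -- the new height is free
  have hfree : ∀ y : w.D.L, h (dg (T' - T0) 1) (s1.map y) = 1 := by
    intro y
    apply le_antisymm (h_dg_le_one _ _)
    have b1 := ci (y ⊔ dg (w.r.qs ((C.p 0).qs (q 0))) 1) (dg ((C.p 0).qs (q 0)) 1)
    have b2 : s1.map (w.r.map (vd (fml s C m) 1)) = s2.map (vd (fml s C m) 1) := by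
      rw [← w.r.qs_vd, ← s1.qs_vd, ← s2.qs_vd]
      exact vd_congr c 1
    have b3 : h (dg T' 1) (s2.map (vd (fml s C m) 1)) = 1 := by
      rw [hT', s2.qs_dg, s2.h_map]
      exact ht_fml s C hx1 m
    rw [b2, ← s2.qs_dg, ← hT', s1.map_sup, ← s1.qs_dg, ← hT0] at b1
    have b4 := I_zero_iff_h.mp (ind_symm b1)
    rw [b3] at b4
    have b5 : dg T' 1 ≤ dg (T' - T0) 1 ⊔ dg T0 1 := by
      have b6 : T' = (T' - T0) + T0 := by ring
      conv_lhs => rw [b6]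
      exact dg_add_le _ _ le_rfl
    have b7 := h_mono (B := s1.map y ⊔ dg T0 1) b5
    have b8 := h_sup_le (dg (T' - T0) 1) (dg T0 1) (s1.map y ⊔ dg T0 1)
    have b9 : h (dg T0 1) (s1.map y ⊔ dg T0 1) = 0 := h_zero le_sup_right
    have b10 : h (dg T' 1) (s1.map y ⊔ dg T0 1 ⊔ s2.map (vd (fml s C m) 1)) ≤ h (dg T' 1) (s1.map y ⊔ dg T0 1) :=
      h_anti le_sup_left
    have b11 : h (dg (T' - T0) 1) (s1.map y ⊔ dg T0 1) ≤ h (dg (T' - T0) 1) (s1.map y) := h_anti le_sup_left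
    linarith
  have hv : ∀ l, s2.qs ((C.p 0).qs (q l)) = s1.qs (w.r.qs ((C.p 0).qs (q l))) +
      (T' - T0) * s1.qs (w.r.qs (vv s C m l)) := by
    intro l
    unfold vv Ty.v
    induction l using Fin.cases with
    | zero =>
      rw [Fin.cons_zero, map_one, map_one, map_one, ← hT', ← hT0]
      ring
    | succ l =>
      rw [Fin.cons_succ, C_q C 0 m l.succ, (s m).hy l]
      simp only [map_add, map_mul]
      rw [← ca l, ← cx l, C_q C m 0 0, ← hT', ← hT0]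
      ring
  have hvx : ∀ l, s1.qs (w.r.qs (vv s C m l)) = s1.qs (w.r0.qs (vv s C m l)) := by
    intro l
    unfold vv Ty.v
    induction l using Fin.cases with
    | zero => rw [Fin.cons_zero, map_one, map_one, map_one, map_one, map_one]
    | succ l =>
      rw [Fin.cons_succ]
      exact congrArg s1.qs (w.cx (m, l)).symm
  obtain ⟨Yn, hYn⟩ : ∃ Yn : ν → QS E, Yn = fun i => ∑ j : Fin k,
      s1.qs (w.r.qs ((C.p m).qs ((s m).c i j.succ))) * (T' ^ (j.succ : ℕ) - T0 ^ (j.succ : ℕ)) := ⟨_, rfl⟩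
  have hz : ∀ i, s2.qs ((C.p 0).qs (z i)) - (s1.qs (w.r.qs ((C.p 0).qs (z i))) + Yn i) ∈ QS.Id E ρ := by
    intro i
    have f1 := (s2.qs_mem_Id hρ).mpr (((C.p m).qs_mem_Id hρ).mpr ((s m).hz i))
    have f2 := (s1.qs_mem_Id hρ).mpr ((w.r.qs_mem_Id hρ).mpr (((C.p m).qs_mem_Id hρ).mpr ((s m).hz i)))
    rw [map_sub, map_sub, C_z C m 0 i, pe_map, pe_map, C_q C m 0 0, ← hT'] at f1
    rw [map_sub, map_sub, map_sub, C_z C m 0 i, pe_map, pe_map, pe_map, C_q C m 0 0, ← hT0] at f2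
    have f3 : pe (fun a => s2.qs ((C.p m).qs ((s m).c i a))) T' =
        pe (fun a => s1.qs (w.r.qs ((C.p m).qs ((s m).c i a)))) T0 + Yn i := by
      rw [hYn]
      unfold pe
      rw [Fin.sum_univ_succ, Fin.sum_univ_succ]
      simp only [Fin.val_zero, pow_zero, mul_one]
      rw [← cc i 0]
      have e1 : ∀ j : Fin k, s2.qs ((C.p m).qs ((s m).c i j.succ)) = s1.qs (w.r.qs ((C.p m).qs ((s m).c i j.succ))) :=
        fun j => (cc i j.succ).symm
      simp only [e1, mul_sub]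
      rw [Finset.sum_sub_distrib]
      ring
    have f4 := (QS.Id E ρ).sub_mem f1 f2
    have f5 : s2.qs ((C.p 0).qs (z i)) - pe (fun a => s2.qs ((C.p m).qs ((s m).c i a))) T' -
        (s1.qs (w.r.qs ((C.p 0).qs (z i))) - pe (fun a => s1.qs (w.r.qs ((C.p m).qs ((s m).c i a)))) T0) =
        s2.qs ((C.p 0).qs (z i)) - (s1.qs (w.r.qs ((C.p 0).qs (z i))) + Yn i) := by
      rw [f3]
      ring
    rw [f5] at f4
    exact f4
  -- informations
  obtain ⟨Q0, hQ0⟩ : ∃ Q0, Q0 = s1.map (w.r0.map ((C.p 0).map (vd q 1))) := ⟨_, rfl⟩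
  obtain ⟨X0, hX0⟩ : ∃ X0, X0 = s1.map (w.r0.map (vd (xs s C) 1)) := ⟨_, rfl⟩
  obtain ⟨R, hR⟩ : ∃ R, R = vd (fun i => s1.qs (w.τ i)) 1 := ⟨_, rfl⟩
  have lQ' : s1.map (w.r.map ((C.p 0).map (vd q 1))) ≤ Q0 ⊔ (X0 ⊔ R) := by
    have h2 := s1.map_mono w.lQ
    rw [s1.map_sup, s1.map_sup, ← hQ0, ← hX0, ← s1.qs_vd, ← hR] at h2
    exact h2
  have lT0 : dg T0 1 ≤ Q0 ⊔ (X0 ⊔ R) := by
    refine le_trans ?_ lQ'
    rw [hT0, ← (C.p 0).qs_vd, ← w.r.qs_vd, ← s1.qs_vd]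
    exact dg_le_vd (fun l => s1.qs (w.r.qs ((C.p 0).qs (q l)))) 1 0
  have lc : ∀ i (j : Fin k), dg (s1.qs (w.r.qs ((C.p m).qs ((s m).c i j.succ)))) 1 ≤ Q0 ⊔ (X0 ⊔ R) := by
    intro i j
    rw [s1.qs_dg, w.r.qs_dg, (C.p m).qs_dg]
    have b1 : dg ((s m).c i j.succ) 1 ≤ vd q 1 ⊔ (s m).iX := ((s m).hF i j).trans (s m).la
    have b2 := s1.map_mono (w.r.map_mono ((C.p m).map_mono b1))
    rw [(C.p m).map_sup, w.r.map_sup, s1.map_sup] at b2
    have b3 : (C.p m).map (vd q 1) = (C.p 0).map (vd q 1) := by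
      rw [← (C.p m).qs_vd, ← (C.p 0).qs_vd]
      exact vd_congr (fun l => C_q C m 0 l) 1
    have b4 : (C.p m).map (s m).iX ≤ vd (xs s C) 1 := by
      rw [xs_sup]
      exact Finset.le_sup (f := fun i => (C.p i).map (s i).iX) (Finset.mem_univ m)
    have b5 : s1.map (w.r.map ((C.p m).map (s m).iX)) ≤ X0 := by
      rw [hX0, ← w.eX]
      exact s1.map_mono (w.r.map_mono b4)
    rw [b3] at b2
    order
  obtain ⟨G, hG⟩ : ∃ G, G = Q0 ⊔ (X0 ⊔ (R ⊔ dg (T' - T0) 1)) := ⟨_, rfl⟩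
  have lYn : ∀ i, dg (Yn i) 1 ≤ G := by
    intro i
    rw [hYn]
    apply (Kn E 1 le_rfl G).sum_mem
    intro j _
    have b2 : T0 ∈ Kn E 1 le_rfl G := by
      rw [mem_Kn, hG]
      exact lT0.trans (sup_le_sup_left (sup_le_sup_left le_sup_left _) _)
    have b1 : T' ∈ Kn E 1 le_rfl G := by
      have b6 : T' - T0 ∈ Kn E 1 le_rfl G := by
        rw [mem_Kn, hG]
        exact le_sup_right.trans (le_sup_right.trans le_sup_right)
      have b7 := (Kn E 1 le_rfl G).add_mem b6 b2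
      rw [sub_add_cancel] at b7
      exact b7
    apply (Kn E 1 le_rfl G).mul_mem
    · rw [mem_Kn, hG]
      exact (lc i j).trans (sup_le_sup_left (sup_le_sup_left le_sup_left _) _)
    · exact (Kn E 1 le_rfl G).sub_mem ((Kn E 1 le_rfl G).pow_mem b1 _) ((Kn E 1 le_rfl G).pow_mem b2 _)
  refine ⟨⟨E, s1.comp w.r0, s2, Fin.snoc (fun i => s1.qs (w.τ i)) (T' - T0), fun i => s1.qs (w.Y i) + Yn i,
    ?_, ?_, ?_, ?_, ?_⟩⟩
  · intro j
    rw [Pj.comp_qs, w.cx j, cX j]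
  · intro l
    rw [hv l, w.cq l, Fin.sum_univ_castSucc]
    simp only [Fin.snoc_castSucc, Fin.snoc_last, Pj.comp_qs]
    rw [map_add, map_sum, hvx l, ← hm, add_assoc]
    congr 1
    congr 1
    apply Finset.sum_congr rfl
    intro j _
    rw [map_mul]
    rfl
  · intro i
    have f1 := (s1.qs_mem_Id hρ).mpr (w.cz i)
    have f2 := (QS.Id E ρ).add_mem (hz i) f1
    rw [map_sub, map_add] at f2
    have f3 : s2.qs ((C.p 0).qs (z i)) - (s1.qs (w.r.qs ((C.p 0).qs (z i))) + Yn i) +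
        (s1.qs (w.r.qs ((C.p 0).qs (z i))) - (s1.qs (w.r0.qs ((C.p 0).qs (z i))) + s1.qs (w.Y i))) =
        s2.qs ((C.p 0).qs (z i)) - ((s1.comp w.r0).qs ((C.p 0).qs (z i)) + (s1.qs (w.Y i) + Yn i)) := by
      rw [Pj.comp_qs]
      ring
    rw [f3] at f2
    exact f2
  · rw [Pj.comp_map, Pj.comp_map, ← hQ0, ← hX0, vd_snoc, ← hR, ← hG, vd_le]
    intro i
    refine (dg_add_le _ _ le_rfl).trans (sup_le ?_ (lYn i))
    have b1 := s1.map_mono w.lY
    rw [s1.map_sup, s1.map_sup, ← hQ0, ← hX0, ← s1.qs_vd, ← s1.qs_vd, ← hR] at b1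
    have b2 := dg_le_vd (fun i => s1.qs (w.Y i)) 1 i
    beta_reduce at b2
    rw [hG]
    exact (b2.trans b1).trans (sup_le_sup_left (sup_le_sup_left le_sup_left _) _)
  · intro y
    rw [Pj.comp_map, vd_snoc, h_chain]
    have b1 : h (vd (fun i => s1.qs (w.τ i)) 1) (s1.map (w.r0.map y)) = n := by
      rw [s1.qs_vd, s1.h_map]
      exact w.hτ y
    have b2 : h (dg (T' - T0) 1) (vd (fun i => s1.qs (w.τ i)) 1 ⊔ s1.map (w.r0.map y)) = 1 := by
      rw [s1.qs_vd, ← s1.map_sup]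
      exact hfree _
    rw [b1, b2]
    push_cast
    ring

variable (s C)

include hx1 in
theorem exists_chn (hρ : ρ ≤ 1) (n : ℕ) (hn : n ≤ d + 1) : Nonempty (Chn s C n hn) := by
  induction n with
  | zero => exact ⟨chn0 s C⟩
  | succ n ih =>
    obtain ⟨w⟩ := ih (Nat.le_of_succ_le hn)
    exact w.step hx1 hρ hn

variable {s C}

/-- the lengths from the positions and the directions, on the event on which the determinant is a unit -/
theorem Chn.lτ {hn : d + 1 ≤ d + 1} (w : Chn s C (d + 1) hn) (E : ∀ k, (C.W.F k).Ω → Prop)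
    (hE : 0 < ul (C.W.pr E)) (hdet : IsUnit (QS.rest E hE (Matrix.of (vv s C)).det)) :
    restL _ (rj_pos w.r0 E hE) (vd w.τ 1) ≤ restL _ (rj_pos w.r0 E hE) (w.r.map ((C.p 0).map (vd q 1))) ⊔
      (restL _ (rj_pos w.r0 E hE) (w.r0.map ((C.p 0).map (vd q 1))) ⊔
        restL _ (rj_pos w.r0 E hE) (w.r0.map (vd (xs s C) 1))) := by
  obtain ⟨R, hR⟩ : ∃ R : QS w.D →+* QS (w.D.rest fun k ω => E k (w.r0.π k ω)),
      R = QS.rest _ (rj_pos w.r0 E hE) := ⟨_, rfl⟩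
  have hRd : ∀ f r, dg (R f) r = restL _ (rj_pos w.r0 E hE) (dg f r) := by
    intro f r
    rw [hR, QS.rest_dg]
  obtain ⟨M, hM⟩ : ∃ M : Matrix (Fin (d + 1)) (Fin (d + 1)) (QS (w.D.rest fun k ω => E k (w.r0.π k ω))),
      M = (Matrix.of (vv s C)).map (R.comp w.r0.qs) := ⟨_, rfl⟩
  obtain ⟨G, hG⟩ : ∃ G, G = restL _ (rj_pos w.r0 E hE) (w.r.map ((C.p 0).map (vd q 1))) ⊔
      (restL _ (rj_pos w.r0 E hE) (w.r0.map ((C.p 0).map (vd q 1))) ⊔
        restL _ (rj_pos w.r0 E hE) (w.r0.map (vd (xs s C) 1))) := ⟨_, rfl⟩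
  have hu : IsUnit M.det := by
    have h1 := hdet.map (rj w.r0 E).qs
    rw [rj_qs] at h1
    have h2 : M.det = R (w.r0.qs (Matrix.of (vv s C)).det) := by
      rw [hM]
      have h3 := RingHom.map_det (R.comp w.r0.qs) (Matrix.of (vv s C))
      rw [RingHom.comp_apply] at h3
      exact h3.symm
    rw [h2, hR]
    exact h1
  have hMm : ∀ i j, dg (M i j) 1 ≤ G := by
    intro i j
    rw [hM, Matrix.map_apply, Matrix.of_apply, RingHom.comp_apply, hRd, w.r0.qs_dg, hG]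
    exact (restL_mono _ _ (w.r0.map_mono (vv_le s C i j))).trans (le_sup_right.trans le_sup_right)
  have hi := inv_mem M le_rfl G hMm hu
  obtain ⟨δ, hδ⟩ : ∃ δ : Fin (d + 1) → QS (w.D.rest fun k ω => E k (w.r0.π k ω)), δ = fun l =>
      R (w.r.qs ((C.p 0).qs (q l))) - R (w.r0.qs ((C.p 0).qs (q l))) := ⟨_, rfl⟩
  have e1 : δ = Matrix.vecMul (fun m => R (w.τ m)) M := by
    funext l
    rw [hδ, Matrix.vecMul, hM]
    beta_reduce
    rw [w.cq l, map_add, add_sub_cancel_left, map_sum]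
    unfold dotProduct
    refine Finset.sum_congr rfl fun m _ => ?_
    rw [map_mul]
    rfl
  have e2 : (fun m => R (w.τ m)) = Matrix.vecMul δ M⁻¹ := by
    rw [e1, Matrix.vecMul_vecMul, Matrix.mul_nonsing_inv M hu, Matrix.vecMul_one]
  have e3 : ∀ m, R (w.τ m) = ∑ l, δ l * M⁻¹ l m := by
    intro m
    have h1 := congrFun e2 m
    exact h1
  have e4 : ∀ l, δ l ∈ Kn _ 1 le_rfl G := by
    intro l
    rw [hδ]
    apply (Kn _ 1 le_rfl G).sub_mem
    · rw [mem_Kn, hG, hRd]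
      refine le_trans ?_ le_sup_left
      apply restL_mono
      rw [← (C.p 0).qs_vd, ← w.r.qs_vd]
      exact dg_le_vd (fun l => w.r.qs ((C.p 0).qs (q l))) 1 l
    · rw [mem_Kn, hG, hRd]
      refine le_trans ?_ (le_sup_left.trans le_sup_right)
      apply restL_mono
      rw [← (C.p 0).qs_vd, ← w.r0.qs_vd]
      exact dg_le_vd (fun l => w.r0.qs ((C.p 0).qs (q l))) 1 l
  have e5 : ∀ m, ∑ l, δ l * M⁻¹ l m ∈ Kn _ 1 le_rfl G := fun m =>
    (Kn _ 1 le_rfl G).sum_mem fun l _ => (Kn _ 1 le_rfl G).mul_mem (e4 l) (mem_Kn.mpr (hi l m))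
  rw [← hG, ← QS.rest_vd, vd_le]
  intro m
  have h2 := e3 m
  rw [hR] at h2
  rw [h2]
  have h3 := e5 m
  exact mem_Kn.mp h3

/-- a walk over the base functions `q` and the top coordinates `z` (up to depth `ρ`), free on an event: `X` are the
data of the walk, `p0` the state at its start, `p1` the state at its end -/
structure WkE {ι : Type} [Fintype ι] (q : ι → QS S) (z : ν → QS S) (ρ : ℝ) where
  D : Sp
  p0 : Pj D S
  p1 : Pj D S
  X : D.L
  Y : ν → QS D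
  G : ∀ k, (D.F k).Ω → Prop
  hG : 0 < ul (D.pr G)
  hz : ∀ i, p1.qs (z i) - (p0.qs (z i) + Y i) ∈ QS.Id D ρ
  hY : vd Y 1 ≤ p0.map (vd q 1) ⊔ X
  hq : p1.map (vd q 1) ≤ p0.map (vd q 1) ⊔ X
  he : I (p0.map (vd z 1)) X (p0.map (vd q 1)) = 0
  hr : I (restL G hG (p1.map (vd q 1))) (restL G hG (p0.map (vd q 1 ⊔ vd z 1))) ⊥ = 0

variable (s C)

include hx1 in
/-- FREE WALKS: if there is a bush whose determinant is a unit on an event then there is a walk, free on an event -/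
theorem exists_wkE (hρ : ρ ≤ 1) (E : ∀ k, (C.W.F k).Ω → Prop) (hE : 0 < ul (C.W.pr E))
    (hdet : IsUnit (QS.rest E hE (Matrix.of (vv s C)).det)) : Nonempty (WkE q z ρ) := by
  obtain ⟨w⟩ := exists_chn s C hx1 hρ (d + 1) le_rfl
  have A1 : I (w.r0.map (vd (xs s C) 1)) (w.r0.map ((C.p 0).map (vd q 1)) ⊔ w.r0.map ((C.p 0).map (vd z 1))) ⊥ = 0 := by
    have h1 := w.r0.I_map (vd (xs s C) 1) C.v ⊥
    rw [xs_point s C hx1, w.r0.map_bot, C_v, w.r0.map_sup] at h1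
    exact h1
  have hQZ : w.r0.map ((C.p 0).map (vd q 1)) ⊔ w.r0.map ((C.p 0).map (vd z 1)) ⊔ w.r0.map (vd (xs s C) 1) =
      w.r0.map ((C.p 0).map (vd q 1) ⊔ (C.p 0).map (vd z 1) ⊔ vd (xs s C) 1) := by
    rw [w.r0.map_sup, w.r0.map_sup]
  have t1 : h (vd w.τ 1) (w.r0.map ((C.p 0).map (vd q 1)) ⊔ w.r0.map ((C.p 0).map (vd z 1)) ⊔
      w.r0.map (vd (xs s C) 1)) = ((d + 1 : ℕ) : ℝ) := by
    rw [hQZ]
    exact w.hτ _
  have A2 : I (vd w.τ 1) (w.r0.map ((C.p 0).map (vd q 1)) ⊔ w.r0.map ((C.p 0).map (vd z 1)) ⊔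
      w.r0.map (vd (xs s C) 1)) ⊥ = 0 := by
    apply ind_of_h
    rw [sup_bot_eq, t1]
    have h1 := H_vd_le w.τ ⊥
    rw [Fintype.card_fin] at h1
    exact h1
  have A4 := ind_start A1 A2
  -- on the event
  have t2 : h (restL _ (rj_pos w.r0 E hE) (vd w.τ 1)) (restL _ (rj_pos w.r0 E hE) (w.r0.map ((C.p 0).map (vd q 1))) ⊔
      restL _ (rj_pos w.r0 E hE) (w.r0.map ((C.p 0).map (vd z 1))) ⊔
      restL _ (rj_pos w.r0 E hE) (w.r0.map (vd (xs s C) 1))) = ((d + 1 : ℕ) : ℝ) := by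
    rw [← restL_sup, ← restL_sup]
    refine Sp.h_rest_max _ (rj_pos w.r0 E hE) t1 ?_
    intro E' hE'
    rw [← QS.rest_vd]
    have h1 := H_vd_le (fun m => QS.rest E' hE' (w.τ m)) (restL E' hE' (w.r0.map ((C.p 0).map (vd q 1)) ⊔
      w.r0.map ((C.p 0).map (vd z 1)) ⊔ w.r0.map (vd (xs s C) 1)))
    rw [Fintype.card_fin] at h1
    exact h1
  have hRr : h (restL _ (rj_pos w.r0 E hE) (w.r.map ((C.p 0).map (vd q 1)))) ⊥ ≤ ((d + 1 : ℕ) : ℝ) := by
    rw [← (C.p 0).qs_vd, ← w.r.qs_vd, ← QS.rest_vd]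
    have h1 := H_vd_le (fun l => QS.rest _ (rj_pos w.r0 E hE) (w.r.qs ((C.p 0).qs (q l)))) ⊥
    rw [Fintype.card_fin] at h1
    exact h1
  have A3 := ind_end t2 (w.lτ E hE hdet) hRr
  refine ⟨⟨w.D, w.r0.comp (C.p 0), w.r.comp (C.p 0), w.r0.map (vd (xs s C) 1) ⊔ vd w.τ 1, w.Y,
    fun k ω => E k (w.r0.π k ω), rj_pos w.r0 E hE, ?_, ?_, ?_, ?_, ?_⟩⟩
  · intro i
    rw [Pj.comp_qs, Pj.comp_qs]
    exact w.cz i
  · rw [Pj.comp_map]
    exact w.lY
  · rw [Pj.comp_map, Pj.comp_map]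
    exact w.lQ
  · rw [Pj.comp_map, Pj.comp_map]
    exact A4
  · rw [Pj.comp_map, Pj.comp_map, (C.p 0).map_sup, w.r0.map_sup, restL_sup]
    exact A3

end bush

end

end Pool.Agent.Helper96.UQR
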